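import Pool.Agent.Work.MP_9d4fac_cf.Interface

/-!
Block BRA (helper4).
-/

set_option autoImplicit false

namespace Pool.BraidIndex.Cf

open Pool.BraidIndex Pool.BraidIndex.Cox

namespace XBRA

variable {Q L : Type} [SemilatticeSup L] [OrderBot L] (K : Kei Q L)

theorem ls_le (v : List Q) (x : L) : ls K v ≤ x ↔ ∀ a ∈ v, K.U a ≤ x := by
  induction v with
  | nil =>
    have h : ls K ([] : List Q) = ⊥ := rfl
    simp [h]
  | cons a v ih =>
    have h : ls K (a :: v) = K.U a ⊔ ls K v := rfl
    rw [h, sup_le_iff, ih, List.forall_mem_cons]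

theorem ls_append (v w : List Q) : ls K (v ++ w) = ls K v ⊔ ls K w := by
  apply le_antisymm
  · rw [ls_le]
    intro a ha
    rcases List.mem_append.1 ha with h | h
    · exact ((ls_le K v _).1 le_sup_left) a h
    · exact ((ls_le K w _).1 le_sup_right) a h
  · apply sup_le
    · rw [ls_le]
      intro a ha
      exact ((ls_le K (v ++ w) _).1 le_rfl) a (List.mem_append_left _ ha)
    · rw [ls_le]
      intro a ha
      exact ((ls_le K (v ++ w) _).1 le_rfl) a (List.mem_append_right _ ha)

theorem ls_reverse (v : List Q) : ls K v.reverse = ls K v := by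
  apply le_antisymm
  · rw [ls_le]
    intro a ha
    exact ((ls_le K v _).1 le_rfl) a (List.mem_reverse.1 ha)
  · rw [ls_le]
    intro a ha
    exact ((ls_le K v.reverse _).1 le_rfl) a (List.mem_reverse.2 ha)

end XBRA

theorem p_BRA (hCUPS : S_CUPS) (hMID : S_MID) (hCAPS : S_CAPS) : S_BRA := by
  intro Q L A _ _ _ K μ n w H e hw hH
  unfold braidClosure at hH
  rw [List.append_assoc] at hH
  obtain ⟨v, hv, H', hH', hle⟩ := hCUPS Q L A K μ n _ H e hH
  obtain ⟨v', e1, e2, H2, hBW, hv', hH2, he, hls, hle2⟩ := hMID Q L A K μ n w _ v _ H' e hw hv hH'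
  obtain ⟨u, hu, hmap, hle3, he2⟩ := hCAPS Q L A K μ n _ H2 e2 hH2
  have hmap' : v' ++ v.reverse = u ++ u.reverse := by
    rw [← hmap]
    simp [List.map_append, List.map_map, Function.comp_def]
  obtain ⟨h1, h2⟩ := List.append_inj hmap' (hv'.trans hu.symm)
  have h3 : v = u := List.reverse_injective h2
  subst h1
  subst h3
  refine ⟨v, hv, ?_, ?_⟩
  · rw [he, he2, add_zero]
    exact hBW
  · have h4 : lsO K (v.reverse.map (fun c => (false, c))) = ls K v := by
      unfold lsO
      rw [List.map_map]
      have : (Prod.snd ∘ fun c : Q => (false, c)) = id := rfl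
      rw [this, List.map_id, XBRA.ls_reverse]
    have h5 : lsO K (v.map (fun c => (true, c)) ++ v.reverse.map (fun c => (false, c))) =
        ls K v := by
      unfold lsO
      rw [List.map_append, List.map_map, List.map_map]
      have h6 : (Prod.snd ∘ fun c : Q => (false, c)) = id := rfl
      have h7 : (Prod.snd ∘ fun c : Q => (true, c)) = id := rfl
      rw [h6, h7, List.map_id, List.map_id, XBRA.ls_append, XBRA.ls_reverse, sup_idem]
    rw [h4] at hle2
    rw [h5] at hle3
    refine hle.trans (sup_le le_rfl (hle2.trans (sup_le (sup_le le_rfl le_rfl) hle3)))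

end Pool.BraidIndex.Cf
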