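import Pool.Agent.Work.MP_9d4fac_cf.Interface
set_option autoImplicit false

namespace Pool.BraidIndex.Cf

theorem p_CNT : S_CNT := by
  intro κ _ _ v S hv _ hd h3
  have h1 : ∑ k : κ, v.count k = v.length := by
    have h := Multiset.sum_count_eq_card (s := Finset.univ) (m := (v : Multiset κ))
      (fun a _ => Finset.mem_univ a)
    simpa using h
  have h2 : S.card ≤ (Finset.univ.filter fun k : κ => 2 ≤ v.count k).card := by
    refine Finset.card_le_card_of_injOn (fun p => if 2 ≤ v.count p.1 then p.1 else p.2) ?_ ?_
    · intro p hp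
      have h4 := h3 p hp
      rw [Finset.mem_coe, Finset.mem_filter]
      refine ⟨Finset.mem_univ _, ?_⟩
      show 2 ≤ v.count (if 2 ≤ v.count p.1 then p.1 else p.2)
      split_ifs with h5
      · exact h5
      · omega
    · intro p hp p' hp' h
      apply hd p hp p' hp'
      have h' : (if 2 ≤ v.count p.1 then p.1 else p.2) =
        if 2 ≤ v.count p'.1 then p'.1 else p'.2 := h
      split_ifs at h'
      · exact Or.inl h'
      · exact Or.inr (Or.inl h')
      · exact Or.inr (Or.inr (Or.inl h'))
      · exact Or.inr (Or.inr (Or.inr h'))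
  have h4 : Fintype.card κ + (Finset.univ.filter fun k : κ => 2 ≤ v.count k).card =
      ∑ k : κ, (1 + if 2 ≤ v.count k then 1 else 0) := by
    rw [Finset.sum_add_distrib, Finset.card_filter, Finset.sum_const, Finset.card_univ,
      smul_eq_mul, mul_one]
  have h5 : ∑ k : κ, (1 + if 2 ≤ v.count k then 1 else 0) ≤ ∑ k : κ, v.count k := by
    refine Finset.sum_le_sum fun k _ => ?_
    have h6 : 0 < v.count k := List.count_pos_iff.mpr (hv k)
    split_ifs with h7
    · omega
    · omega
  omega

end Pool.BraidIndex.Cf
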