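import Pool.Agent.Work.MP_9d4fac_cf.Interface

set_option autoImplicit false

namespace Pool.BraidIndex.Cf

open Pool.BraidIndex Pool.BraidIndex.Cox

namespace XCUPS

section
variable {Q L : Type} [SemilatticeSup L] [OrderBot L] (K : Kei Q L)

theorem ls_le {v : List Q} {B : L} : ls K v ≤ B ↔ ∀ a ∈ v, K.U a ≤ B := by
  induction v with
  | nil => simp [ls]
  | cons a v ih =>
    have h : ls K (a :: v) = K.U a ⊔ ls K v := rfl
    rw [h, sup_le_iff, ih]
    simp

theorem U_le_ls {v : List Q} {a : Q} (h : a ∈ v) : K.U a ≤ ls K v := (ls_le K).1 le_rfl a h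

theorem lsO_le {v : List (Bool × Q)} {B : L} : lsO K v ≤ B ↔ ∀ a ∈ v, K.U a.2 ≤ B := by
  unfold lsO
  rw [ls_le]
  constructor
  · intro h a ha
    exact h _ (List.mem_map.2 ⟨a, ha, rfl⟩)
  · intro h a ha
    obtain ⟨b, hb, rfl⟩ := List.mem_map.1 ha
    exact h b hb

end

end XCUPS

open XCUPS in
/-- block CUPS -/
theorem p_CUPS : S_CUPS := by
  intro Q L A _ _ _ K μ n
  induction n with
  | zero =>
    intro X H e h
    exact ⟨[], rfl, H, h, le_sup_right⟩
  | succ n ih =>
    intro X H e h
    rw [List.range_succ, List.map_append, List.append_assoc] at h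
    obtain ⟨v, hv, H1, h1, h2⟩ := ih _ _ _ h
    obtain ⟨v', ⟨l, u, r, u', hl, hu, hV, hu', rfl⟩, H', hH', heq⟩ := h1
    have hu0 : u = [] := List.length_eq_zero_iff.1 hu
    subst hu0
    obtain ⟨c, rfl⟩ := hu'
    rw [List.append_nil] at hV
    have hl2 : (v.map (fun c => (true, c))).length = l.length := by
      rw [List.length_map, hv, hl]
    obtain ⟨e1, e2⟩ := List.append_inj hV hl2
    subst e1
    subst e2
    have e3 := congrArg Prod.fst heq
    have e4 := congrArg Prod.snd heq
    dsimp only at e3 e4
    refine ⟨v ++ [c], by simp [hv], H'.1, ?_, ?_⟩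
    · have e5 : (v ++ [c]).map (fun c => (true, c)) ++ (v ++ [c]).reverse.map (fun c => (false, c)) =
          v.map (fun c => (true, c)) ++ [(true, c), (!true, c)] ++
            v.reverse.map (fun c => (false, c)) := by simp
      rw [e5, e4, zero_add]
      exact hH'
    · refine h2.trans (sup_le ?_ ?_)
      · refine le_trans ?_ le_sup_left
        rw [ls_le]
        intro a ha
        exact U_le_ls K (List.mem_append_left _ ha)
      · rw [e3]
        refine sup_le (le_trans ?_ le_sup_left) le_sup_right
        rw [lsO_le]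
        intro a ha
        rcases List.mem_append.1 ha with ha | ha
        · obtain ⟨b, hb, rfl⟩ := List.mem_map.1 ha
          exact U_le_ls K (List.mem_append_left _ hb)
        · obtain ⟨b, hb, rfl⟩ := List.mem_map.1 ha
          exact U_le_ls K (List.mem_append_left _ (List.mem_reverse.1 hb))

end Pool.BraidIndex.Cf
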