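import Pool.Agent.Work.MP_9d4fac_cf.Interface
import Pool.Agent.Work.MP_9d4fac_gt.S_localB

set_option autoImplicit false

namespace Pool.BraidIndex.Cf

open Pool.BraidIndex Pool.BraidIndex.Cox

namespace XFAR

section
variable {Q L A : Type} [SemilatticeSup L] [OrderBot L] [AddCommGroup A] (K : Kei Q L) (μ : Q → Q → A)

theorem ls_nil : ls K [] = ⊥ := rfl

theorem ls_cons (a : Q) (v : List Q) : ls K (a :: v) = K.U a ⊔ ls K v := rfl

theorem ls_append (v w : List Q) : ls K (v ++ w) = ls K v ⊔ ls K w := by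
  induction v with
  | nil => rw [List.nil_append, ls_nil, bot_sup_eq]
  | cons a v ih => rw [List.cons_append, ls_cons, ls_cons, ih, sup_assoc]

theorem lsO_append (v w : List (Bool × Q)) : lsO K (v ++ w) = lsO K v ⊔ lsO K w := by
  unfold lsO
  rw [List.map_append, ls_append]

theorem low {B : List Piece} {w : List (Bool × Q)} {H : L × A} (h : H ∈ St K μ B w) : lsO K w ≤ H.1 := by
  rcases B with _ | ⟨q, D⟩
  · obtain ⟨rfl, rfl⟩ : w = [] ∧ H = (⊥, 0) := h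
    exact le_of_eq (ls_nil K)
  · obtain ⟨v', _, H', _, rfl⟩ : ∃ v' ∈ actsO K μ q w, ∃ H' ∈ St K μ D v'.1,
      H = (lsO K w ⊔ H'.1, v'.2 + H'.2) := h
    exact le_sup_left

theorem split (k : Kind) (l u r : List (Bool × Q)) (D : List Piece) (H : L × A) (h : u.length = k.ar) :
    H ∈ St K μ ((k, l.length) :: D) (l ++ u ++ r) ↔
      ∃ u' ∈ colsO K μ k u, ∃ H' ∈ St K μ D (l ++ u'.1 ++ r),
        H = (lsO K (l ++ u ++ r) ⊔ H'.1, u'.2 + H'.2) := by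
  constructor
  · intro hH
    obtain ⟨v', hv', H', hH', rfl⟩ : ∃ v' ∈ actsO K μ (k, l.length) (l ++ u ++ r),
      ∃ H' ∈ St K μ D v'.1, H = (lsO K (l ++ u ++ r) ⊔ H'.1, v'.2 + H'.2) := hH
    obtain ⟨l1, u1, r1, u1', e1, e2, e3, e4, rfl⟩ : ∃ (l1 u1 r1 : List (Bool × Q))
      (u1' : List (Bool × Q) × A), l1.length = l.length ∧
      u1.length = k.ar ∧ l ++ u ++ r = l1 ++ u1 ++ r1 ∧ u1' ∈ colsO K μ k u1 ∧
      v' = (l1 ++ u1'.1 ++ r1, u1'.2) := hv'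
    rw [List.append_assoc, List.append_assoc] at e3
    obtain ⟨rfl, e5⟩ := List.append_inj e3 e1.symm
    obtain ⟨rfl, rfl⟩ := List.append_inj e5 (h.trans e2.symm)
    exact ⟨u1', e4, H', hH', rfl⟩
  · rintro ⟨u', hu', H', hH', rfl⟩
    exact ⟨(l ++ u'.1 ++ r, u'.2), ⟨l, u, r, u', rfl, h, rfl, hu', rfl⟩, H', hH', rfl⟩

theorem ab2 {v x h : L} (hx : x ≤ v ⊔ h) : v ⊔ (x ⊔ h) = v ⊔ h :=
  le_antisymm (sup_le le_sup_left (sup_le hx le_sup_right)) (sup_le le_sup_left (le_sup_right.trans le_sup_right))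

theorem clen (k : Kind) (u : List (Bool × Q)) (u' : List (Bool × Q) × A) (hk : u' ∈ colsO K μ k u) :
    u'.1.length = k.oar := by
  rcases k with o | _ | s
  · rcases u with _ | ⟨a, u⟩
    · obtain ⟨c, rfl⟩ : ∃ c, u' = ([(o, c), (!o, c)], 0) := hk
      rfl
    · exact absurd hk (Set.notMem_empty _)
  · rcases u with _ | ⟨a, _ | ⟨b, _ | ⟨c, u⟩⟩⟩
    · exact absurd hk (Set.notMem_empty _)
    · exact absurd hk (Set.notMem_empty _)
    · obtain ⟨_, _, rfl⟩ : a.2 = b.2 ∧ b.1 = !a.1 ∧ u' = ([], 0) := hk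
      rfl
    · exact absurd hk (Set.notMem_empty _)
  · rcases u with _ | ⟨a, _ | ⟨b, _ | ⟨c, u⟩⟩⟩
    · exact absurd hk (Set.notMem_empty _)
    · exact absurd hk (Set.notMem_empty _)
    · obtain rfl : u' = (if s then [(b.1, K.op a.2 b.2), a] else [b, (a.1, K.op b.2 a.2)],
        sg s a.1 b.1 • μ a.2 b.2) := hk
      cases s <;> rfl
    · exact absurd hk (Set.notMem_empty _)

end

end XFAR

open XFAR in
theorem p_FAR : S_FAR := by
  intro Q L A _ _ _ K μ k1 k2 i d B os hX hY v hv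
  have hvl : v.length = os.length := by rw [← hv, List.length_map]
  ext H
  obtain ⟨f1, w1, s1, g1⟩ := LB.fits hX
  obtain ⟨f2, w2, s2, g2⟩ := LB.fits g1
  have e1 := LB.step_len s1
  simp only at f1 f2 e1
  have hlen : i + (k1.ar + d + k2.ar) ≤ v.length := by omega
  obtain ⟨l, u, r, rfl, hl, hu⟩ := LB.dec3 v i _ hlen
  obtain ⟨u1, t1, t2, rfl, hu1, ht1⟩ := LB.dec3 u 0 k1.ar (by omega)
  rw [List.length_eq_zero_iff] at hu1
  subst hu1
  obtain ⟨m, u2, t3, rfl, hm, hu2⟩ := LB.dec3 t2 d k2.ar (by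
    simp only [List.length_append, List.length_nil] at hu; omega)
  have ht3 : t3 = [] := by
    rw [← List.length_eq_zero_iff]
    simp only [List.length_append, List.length_nil] at hu
    omega
  subst ht3
  subst hl
  have ev : l ++ ([] ++ t1 ++ (m ++ u2 ++ [])) ++ r = l ++ t1 ++ m ++ u2 ++ r := by simp
  rw [ev]
  have eX : H ∈ St K μ ([(k1, l.length), (k2, l.length + k1.oar + d)] ++ B) (l ++ t1 ++ m ++ u2 ++ r) ↔
      ∃ u1' ∈ colsO K μ k1 t1, ∃ u2' ∈ colsO K μ k2 u2, ∃ H' ∈ St K μ B (l ++ u1'.1 ++ m ++ u2'.1 ++ r),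
        H = (lsO K (l ++ t1 ++ m ++ u2 ++ r) ⊔ H'.1, u1'.2 + (u2'.2 + H'.2)) := by
    have h1 := split K μ k1 l t1 (m ++ u2 ++ r) ((k2, l.length + k1.oar + d) :: B) H ht1
    have e2 : l ++ t1 ++ (m ++ u2 ++ r) = l ++ t1 ++ m ++ u2 ++ r := by simp
    rw [e2] at h1
    refine h1.trans ?_
    have h2 : ∀ u1' ∈ colsO K μ k1 t1, ∀ H1 : L × A,
        H1 ∈ St K μ ((k2, l.length + k1.oar + d) :: B) (l ++ u1'.1 ++ (m ++ u2 ++ r)) ↔
        ∃ u2' ∈ colsO K μ k2 u2, ∃ H' ∈ St K μ B (l ++ u1'.1 ++ m ++ u2'.1 ++ r),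
          H1 = (lsO K (l ++ u1'.1 ++ m ++ u2 ++ r) ⊔ H'.1, u2'.2 + H'.2) := by
      intro u1' hu1' H1
      have h3 := split K μ k2 (l ++ u1'.1 ++ m) u2 r B H1 hu2
      have e3 : (l ++ u1'.1 ++ m).length = l.length + k1.oar + d := by
        simp only [List.length_append, clen K μ _ _ _ hu1', hm]
      rw [e3] at h3
      have e4 : l ++ u1'.1 ++ (m ++ u2 ++ r) = l ++ u1'.1 ++ m ++ u2 ++ r := by simp
      rw [e4]
      exact h3
    have h4 : ∀ u1' ∈ colsO K μ k1 t1, ∀ u2' ∈ colsO K μ k2 u2, ∀ H' ∈ St K μ B (l ++ u1'.1 ++ m ++ u2'.1 ++ r),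
        lsO K (l ++ u1'.1 ++ m ++ u2 ++ r) ≤ lsO K (l ++ t1 ++ m ++ u2 ++ r) ⊔ H'.1 := by
      intro u1' _ u2' _ H' hH'
      have h := low K μ hH'
      simp only [lsO_append, sup_le_iff] at h ⊢
      obtain ⟨⟨⟨⟨h5, h6⟩, h7⟩, h8⟩, h9⟩ := h
      exact ⟨⟨⟨⟨h5.trans le_sup_right, h6.trans le_sup_right⟩, h7.trans le_sup_right⟩,
        (le_sup_right.trans le_sup_left).trans le_sup_left⟩, h9.trans le_sup_right⟩
    constructor
    · rintro ⟨u1', hu1', H1, hH1, rfl⟩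
      obtain ⟨u2', hu2', H', hH', rfl⟩ := (h2 u1' hu1' H1).1 hH1
      exact ⟨u1', hu1', u2', hu2', H', hH', Prod.ext (ab2 (h4 u1' hu1' u2' hu2' H' hH')) rfl⟩
    · rintro ⟨u1', hu1', u2', hu2', H', hH', rfl⟩
      exact ⟨u1', hu1', _, (h2 u1' hu1' _).2 ⟨u2', hu2', H', hH', rfl⟩,
        Prod.ext (ab2 (h4 u1' hu1' u2' hu2' H' hH')).symm rfl⟩
  have eY : H ∈ St K μ ([(k2, l.length + k1.ar + d), (k1, l.length)] ++ B) (l ++ t1 ++ m ++ u2 ++ r) ↔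
      ∃ u1' ∈ colsO K μ k1 t1, ∃ u2' ∈ colsO K μ k2 u2, ∃ H' ∈ St K μ B (l ++ u1'.1 ++ m ++ u2'.1 ++ r),
        H = (lsO K (l ++ t1 ++ m ++ u2 ++ r) ⊔ H'.1, u1'.2 + (u2'.2 + H'.2)) := by
    have h1 := split K μ k2 (l ++ t1 ++ m) u2 r ((k1, l.length) :: B) H hu2
    have e3 : (l ++ t1 ++ m).length = l.length + k1.ar + d := by
      simp only [List.length_append, ht1, hm]
    rw [e3] at h1
    refine h1.trans ?_
    have h2 : ∀ u2' : List (Bool × Q), ∀ H1 : L × A,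
        H1 ∈ St K μ ((k1, l.length) :: B) (l ++ t1 ++ m ++ u2' ++ r) ↔
        ∃ u1' ∈ colsO K μ k1 t1, ∃ H' ∈ St K μ B (l ++ u1'.1 ++ m ++ u2' ++ r),
          H1 = (lsO K (l ++ t1 ++ m ++ u2' ++ r) ⊔ H'.1, u1'.2 + H'.2) := by
      intro u2' H1
      have h3 := split K μ k1 l t1 (m ++ u2' ++ r) B H1 ht1
      have e4 : ∀ x : List (Bool × Q), l ++ x ++ (m ++ u2' ++ r) = l ++ x ++ m ++ u2' ++ r := by
        intro x
        simp
      simp only [e4] at h3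
      exact h3
    have h4 : ∀ u1' ∈ colsO K μ k1 t1, ∀ u2' ∈ colsO K μ k2 u2, ∀ H' ∈ St K μ B (l ++ u1'.1 ++ m ++ u2'.1 ++ r),
        lsO K (l ++ t1 ++ m ++ u2'.1 ++ r) ≤ lsO K (l ++ t1 ++ m ++ u2 ++ r) ⊔ H'.1 := by
      intro u1' _ u2' _ H' hH'
      have h := low K μ hH'
      simp only [lsO_append, sup_le_iff] at h ⊢
      obtain ⟨⟨⟨⟨h5, h6⟩, h7⟩, h8⟩, h9⟩ := h
      exact ⟨⟨⟨⟨h5.trans le_sup_right,
        (((le_sup_right.trans le_sup_left).trans le_sup_left).trans le_sup_left).trans le_sup_left⟩,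
        h7.trans le_sup_right⟩, h8.trans le_sup_right⟩, h9.trans le_sup_right⟩
    constructor
    · rintro ⟨u2', hu2', H1, hH1, rfl⟩
      obtain ⟨u1', hu1', H', hH', rfl⟩ := (h2 u2'.1 H1).1 hH1
      exact ⟨u1', hu1', u2', hu2', H', hH', Prod.ext (ab2 (h4 u1' hu1' u2' hu2' H' hH'))
        (add_left_comm _ _ _)⟩
    · rintro ⟨u1', hu1', u2', hu2', H', hH', rfl⟩
      exact ⟨u2', hu2', _, (h2 u2'.1 _).2 ⟨u1', hu1', H', hH', rfl⟩,
        Prod.ext (ab2 (h4 u1' hu1' u2' hu2' H' hH')).symm (add_left_comm _ _ _)⟩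
  exact eX.trans eY.symm

end Pool.BraidIndex.Cf
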