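import Pool.Agent.Work.MP_9d4fac_cf.Interface

set_option autoImplicit false

namespace Pool.BraidIndex.Cf

namespace XFL2

theorem aux {κ R : Type} [DecidableEq κ] (A B : κ) (h : A ≠ B) (v : List (κ × R)) :
    ((v.filter (fun c => decide (c.1 = A ∨ c.1 = B))).map Prod.fst).count A =
      (v.map Prod.fst).count A ∧
    (v.filter (fun c => decide (c.1 = A ∨ c.1 = B))).length =
      (v.map Prod.fst).count A + (v.map Prod.fst).count B := by
  induction v with
  | nil => simp
  | cons c v ih =>
    obtain ⟨h1, h2⟩ := ih
    by_cases hA : c.1 = A
    · have hB : c.1 ≠ B := by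
        rw [hA]
        exact h
      rw [List.filter_cons_of_pos (by simp [hA])]
      rw [List.map_cons, List.map_cons, List.length_cons, List.count_cons, List.count_cons,
        List.count_cons, h1, h2]
      have e1 : (c.1 == A) = true := by simp [hA]
      have e2 : (c.1 == B) = false := by simp [hB]
      rw [e1, e2]
      constructor
      · rfl
      · simp only [if_true, Bool.false_eq_true, if_false]
        omega
    · by_cases hB : c.1 = B
      · rw [List.filter_cons_of_pos (by simp [hB])]
        rw [List.map_cons, List.map_cons, List.length_cons, List.count_cons, List.count_cons,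
          List.count_cons, h1, h2]
        have e1 : (c.1 == A) = false := by simp [hA]
        have e2 : (c.1 == B) = true := by simp [hB]
        rw [e1, e2]
        constructor
        · rfl
        · simp only [if_true, Bool.false_eq_true, if_false]
          omega
      · rw [List.filter_cons_of_neg (by simp [hA, hB])]
        rw [List.map_cons, List.count_cons, List.count_cons, h1, h2]
        have e1 : (c.1 == A) = false := by simp [hA]
        have e2 : (c.1 == B) = false := by simp [hB]
        rw [e1, e2]
        constructor
        · rfl
        · rfl

end XFL2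

theorem p_FL2 : S_FL2 := by
  intro κ R _ v A B h hA hB
  obtain ⟨h1, h2⟩ := XFL2.aux A B h v
  rw [hA] at h1 h2
  rw [hB] at h2
  obtain ⟨x, y, hxy⟩ := List.length_eq_two.mp h2
  refine ⟨x, y, hxy, fun he => ?_⟩
  rw [hxy, List.map_cons, List.map_cons, List.map_nil, List.count_cons, List.count_cons,
    List.count_nil, he] at h1
  cases hb : (y.1 == A)
  · rw [hb] at h1
    simp at h1
  · rw [hb] at h1
    simp at h1

end Pool.BraidIndex.Cf
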