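import Pool.Agent.Work.MP_9d4fac_cf.Interface

/-! Block ISO: moves in context (helper12, after MP_9d4fac_cox/Isotopic.lean). -/

set_option autoImplicit false

namespace Pool.BraidIndex.Cf

open Pool.BraidIndex Pool.BraidIndex.Cox

namespace XISO

section
variable {Q L A : Type} [SemilatticeSup L] [OrderBot L] [AddCommGroup A] (K : Kei Q L)
  (μ : Q → Q → A)

theorem ori_cols {k : Kind} {u : List (Bool × Q)} {u' : List (Bool × Q) × A}
    (hu : u.length = k.ar) (h : u' ∈ colsO K μ k u) :
    k.ori (u.map Prod.fst) = some (u'.1.map Prod.fst) := by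
  cases k with
  | cup o =>
    have : u = [] := List.length_eq_zero_iff.1 hu
    subst this
    obtain ⟨c, rfl⟩ := h
    rfl
  | cap =>
    obtain ⟨a, b, rfl⟩ := len2 hu
    obtain ⟨-, h2, rfl⟩ := h
    show (if b.1 = !a.1 then some [] else none) = some ([] : List Bool)
    rw [if_pos h2]
  | cross s =>
    obtain ⟨a, b, rfl⟩ := len2 hu
    have h1 : u' = (if s then [(b.1, K.op a.2 b.2), a] else [b, (a.1, K.op b.2 a.2)],
      sg s a.1 b.1 • μ a.2 b.2) := h
    subst h1
    cases s <;> rfl

theorem step {k : Kind} {i : ℕ} {v : List (Bool × Q)} {w : List Bool}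
    {v' : List (Bool × Q) × A} (h : v' ∈ actsO K μ (k, i) v)
    (hw : stepO (k, i) (v.map Prod.fst) = some w) : v'.1.map Prod.fst = w := by
  obtain ⟨l, u, r, u', hl, hu, rfl, hu', rfl⟩ := h
  have h1 := ori_cols K μ hu hu'
  have h2 := p_osplit k (l.map Prod.fst) (u.map Prod.fst) (r.map Prod.fst)
    (by rw [List.length_map]; exact hu)
  have hl' : l.length = i := hl
  rw [List.length_map, hl', h1] at h2
  rw [List.map_append, List.map_append, h2] at hw
  simp only [Option.map_some, Option.some.injEq] at hw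
  rw [List.map_append, List.map_append]
  exact hw

/-- moves under a common beginning -/
theorem context {X Y B : List Piece}
    (hloc : ∀ os : List Bool, (runO (X ++ B) os).isSome → (runO (Y ++ B) os).isSome →
      ∀ v : List (Bool × Q), v.map Prod.fst = os → St K μ (X ++ B) v = St K μ (Y ++ B) v)
    (P : List Piece) :
    ∀ os : List Bool, (runO (P ++ (X ++ B)) os).isSome → (runO (P ++ (Y ++ B)) os).isSome →
      ∀ v : List (Bool × Q), v.map Prod.fst = os →
        St K μ (P ++ (X ++ B)) v = St K μ (P ++ (Y ++ B)) v := by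
  induction P with
  | nil =>
    intro os h1 h2 v hv
    exact hloc os h1 h2 v hv
  | cons q P ih =>
    intro os h1 h2 v hv
    obtain ⟨k, i⟩ := q
    obtain ⟨w, hw, hw1⟩ := run_cons h1
    obtain ⟨w', hw', hw2⟩ := run_cons h2
    have e : w' = w := by
      rw [hw] at hw'
      exact (Option.some.inj hw').symm
    subst e
    have key : ∀ v' ∈ actsO K μ (k, i) v,
        St K μ (P ++ (X ++ B)) v'.1 = St K μ (P ++ (Y ++ B)) v'.1 := by
      intro v' hv'
      refine ih w' hw1 hw2 v'.1 (step K μ hv' ?_)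
      rw [hv]
      exact hw
    ext H
    rw [List.cons_append, List.cons_append]
    constructor
    · rintro ⟨v', hv', H', hH', rfl⟩
      exact ⟨v', hv', H', by rw [← key v' hv']; exact hH', rfl⟩
    · rintro ⟨v', hv', H', hH', rfl⟩
      exact ⟨v', hv', H', by rw [key v' hv']; exact hH', rfl⟩

end

end XISO

theorem p_ISO (hFAR : S_FAR) (hZIG : S_ZIG) (hR1 : S_R1) (hR2 : S_R2) (hR3 : S_R3)
    (hSCU : S_SCU) (hSCA : S_SCA) : S_ISO := by
  intro Q L A _ _ _ K μ hW D D' h
  induction h with
  | rel D D' h =>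
    obtain ⟨h1, h2, P, X, Y, B, hl, rfl, rfl⟩ := h
    rw [List.append_assoc] at h1 h2 ⊢
    rw [List.append_assoc]
    refine XISO.context K μ ?_ P [] ?_ ?_ [] rfl
    · intro os a1 a2 v hv
      cases hl with
      | far k1 k2 i d => exact hFAR Q L A K μ k1 k2 i d B os a1 a2 v hv
      | zigL o i => exact hZIG.1 o i Q L A K μ hW B os a1 a2 v hv
      | zigR o i => exact hZIG.2 o i Q L A K μ hW B os a1 a2 v hv
      | r1cup o s i => exact hR1.1 o s i Q L A K μ hW B os a1 a2 v hv
      | r1cap s i => exact hR1.2 s i Q L A K μ hW B os a1 a2 v hv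
      | r2 s i => exact hR2 s i Q L A K μ hW B os a1 a2 v hv
      | r3 s i => exact hR3 s i Q L A K μ hW B os a1 a2 v hv
      | slideCup o s i => exact hSCU o s i Q L A K μ hW B os a1 a2 v hv
      | slideCap s i => exact hSCA s i Q L A K μ hW B os a1 a2 v hv
    · rw [IsDiagram] at h1; rw [h1]; rfl
    · rw [IsDiagram] at h2; rw [h2]; rfl
  | refl D => rfl
  | symm D D' _ ih => exact ih.symm
  | trans D D' D'' _ _ ih1 ih2 => exact ih1.trans ih2

end Pool.BraidIndex.Cf
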