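import Pool.Agent.Work.MP_9d4fac_cf.Interface

set_option autoImplicit false

/-! # Block KEI (helper33) -/

namespace Pool.BraidIndex.Cf

open Pool.BraidIndex Pool.BraidIndex.Cox

theorem p_KEI : S_KEI := by
  intro κ π _ _ N pr
  refine ⟨⟨opC N pr, UC N pr, ?_, ?_, ?_, ?_⟩, rfl, rfl, ?_, ?_, ?_⟩
  · rintro ⟨k, x⟩
    simp only [opC, if_true]
    ext
    · rfl
    · show 2 * x - x = x
      ring
  · rintro ⟨k, x⟩ ⟨l, y⟩
    simp only [opC]
    split_ifs with h
    · ext
      · rfl
      · show 2 * x - (2 * x - y) = y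
        ring
    · rfl
  · rintro ⟨k, x⟩ ⟨l, y⟩ ⟨m, z⟩
    simp only [opC]
    by_cases h1 : pr k = pr l
    · by_cases h2 : pr l = pr m
      · have h3 : pr k = pr m := h1.trans h2
        simp only [h2, h3, if_true]
        ext
        · rfl
        · show 2 * x - (2 * y - z) = 2 * (2 * x - y) - (2 * x - z)
          ring
      · have h3 : pr k ≠ pr m := fun h => h2 (h1.symm.trans h)
        simp only [if_neg h2, if_neg h3]
    · by_cases h2 : pr l = pr m
      · have h3 : pr k ≠ pr m := fun h => h1 (h.trans h2.symm)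
        simp only [if_neg h1, if_neg h3, if_pos h2]
      · by_cases h3 : pr k = pr m
        · simp only [if_neg h2, if_pos h3]
        · simp only [if_neg h2, if_neg h3]
  · rintro ⟨k, x⟩ ⟨l, y⟩
    refine ⟨?_, ?_⟩
    · show ({l} : Set κ) ≤ {k} ⊔ {l}
      exact le_sup_right
    · intro b
      show (if b = pr l then Submodule.span (ZMod N) {((if pr k = pr l then 2 * x - y else y), (1 : ZMod N))} else ⊥) ≤
        (if b = pr k then Submodule.span (ZMod N) {(x, (1 : ZMod N))} else ⊥) ⊔
        (if b = pr l then Submodule.span (ZMod N) {(y, (1 : ZMod N))} else ⊥)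
      by_cases hb : b = pr l
      · rw [if_pos hb, if_pos hb]
        by_cases h : pr k = pr l
        · rw [if_pos h, if_pos (hb.trans h.symm), Submodule.span_singleton_le_iff_mem, Submodule.mem_sup]
          refine ⟨(2 : ZMod N) • (x, (1 : ZMod N)), Submodule.smul_mem _ _ (Submodule.mem_span_singleton_self _),
            (-1 : ZMod N) • (y, (1 : ZMod N)), Submodule.smul_mem _ _ (Submodule.mem_span_singleton_self _), ?_⟩
          ext
          · show 2 * x + -1 * y = 2 * x - y
            ring
          · show (2 : ZMod N) * 1 + -1 * 1 = 1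
            ring
        · rw [if_neg h]
          exact le_sup_right
      · rw [if_neg hb]
        exact bot_le
  · intro a b
    funext i j
    simp only [muC]
    congr 1
    apply propext
    constructor
    · rintro ⟨h, h1 | h1⟩
      · exact ⟨h, Or.inr ⟨h1.2, h1.1⟩⟩
      · exact ⟨h, Or.inl ⟨h1.2, h1.1⟩⟩
    · rintro ⟨h, h1 | h1⟩
      · exact ⟨h, Or.inr ⟨h1.2, h1.1⟩⟩
      · exact ⟨h, Or.inl ⟨h1.2, h1.1⟩⟩
  · intro a
    funext i j
    simp only [muC]
    rw [if_neg]
    · rfl
    · rintro ⟨h, h1 | h1⟩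
      · exact h (h1.1.symm.trans h1.2)
      · exact h (h1.2.symm.trans h1.1)
  · intro a b c
    rfl

end Pool.BraidIndex.Cf
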