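import Pool.Agent.Work.MP_9d4fac_cf.Interface

/-! # Block LK: the weight sum of a labelled colouring -/

set_option autoImplicit false

namespace Pool.BraidIndex.Cf

open Pool.BraidIndex Pool.BraidIndex.Cox

theorem p_LK : S_LK := by
  intro κ _ N D lab c i j hij
  rw [Finset.sum_apply, Finset.sum_apply]
  unfold lk2
  refine Finset.sum_congr rfl fun t _ => ?_
  unfold wtAt
  rcases h : D[t]? with _ | ⟨k, m⟩
  · rfl
  · cases k with
    | cup o => rfl
    | cap => rfl
    | cross s =>
      show sg s ((ori D t).getD m true) ((ori D t).getD (m + 1) true) •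
        (if i ≠ j ∧ ((lab (t, m) = i ∧ lab (t, m + 1) = j) ∨ (lab (t, m) = j ∧ lab (t, m + 1) = i)) then
          (1 : ℤ) else 0) = if (lab (t, m) = i ∧ lab (t, m + 1) = j) ∨ (lab (t, m) = j ∧ lab (t, m + 1) = i) then
          sg s ((ori D t).getD m true) ((ori D t).getD (m + 1) true) else 0
      by_cases h1 : (lab (t, m) = i ∧ lab (t, m + 1) = j) ∨ (lab (t, m) = j ∧ lab (t, m + 1) = i)
      · rw [if_pos ⟨hij, h1⟩, if_pos h1, smul_eq_mul, mul_one]
      · rw [if_neg (fun h2 => h1 h2.2), if_neg h1, smul_zero]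

end Pool.BraidIndex.Cf
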