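import Pool.Agent.Work.MP_9d4fac_cf.Interface

set_option autoImplicit false

namespace Pool.BraidIndex.Cf

open Pool.BraidIndex Pool.BraidIndex.Cox

namespace XLOW

variable {Q : Type}

/-- the oriented colours of level `t` -/
def lv (D : List Piece) (c : ℕ × ℕ → Q) (t : ℕ) : List (Bool × Q) :=
  (ori D t).mapIdx fun j o => (o, c (t, j))

theorem ori_step {D : List Piece} (hD : IsDiagram D) {t i : ℕ} {k : Kind} (h : D[t]? = some (k, i)) :
    stepO (k, i) (ori D t) = some (ori D (t + 1)) := by
  have h1 : runO (D.take (t + 1)) [] = (runO (D.take t) []).bind (runO [(k, i)]) := by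
    rw [← Lower.runO_append, List.take_add_one, h]
    rfl
  have h2 : runO D [] = (runO (D.take (t + 1)) []).bind (runO (D.drop (t + 1))) := by
    rw [← Lower.runO_append, List.take_append_drop]
  have h3 : runO D [] = some [] := hD
  rw [h3] at h2
  obtain ⟨w, hw, -⟩ := Option.bind_eq_some_iff.1 h2.symm
  obtain ⟨v, hv, hvw⟩ := Option.bind_eq_some_iff.1 (h1.symm.trans hw)
  have h4 : stepO (k, i) v = some w := by
    simp only [runO] at hvw
    obtain ⟨w', hw', hw''⟩ := Option.bind_eq_some_iff.1 hvw
    simp only [Option.some.injEq] at hw''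
    rw [hw', hw'']
  rw [ori, ori, hv, hw]
  exact h4

theorem split {D : List Piece} (hD : IsDiagram D) {t i : ℕ} {k : Kind} (h : D[t]? = some (k, i)) :
    ∃ l u r u' : List Bool, l.length = i ∧ u.length = k.ar ∧ u'.length = k.oar ∧ k.ori u = some u' ∧
      ori D t = l ++ u ++ r ∧ ori D (t + 1) = l ++ u' ++ r := by
  have h1 := ori_step hD h
  obtain ⟨ht, m, h2, h3⟩ := Lower.len_step hD h
  unfold stepO at h1
  simp only at h1
  split_ifs at h1 with h4
  obtain ⟨u', hu', hw⟩ := Option.map_eq_some_iff.1 h1
  have e : ori D t = (ori D t).take i ++ ((ori D t).drop i).take k.ar ++ (ori D t).drop (i + k.ar) := by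
    rw [List.append_assoc, ← List.drop_drop, List.take_append_drop, List.take_append_drop]
  have l1 : ((ori D t).take i).length = i := by rw [List.length_take]; omega
  have l2 : (((ori D t).drop i).take k.ar).length = k.ar := by
    rw [List.length_take, List.length_drop]; omega
  have l3 : ((ori D t).drop (i + k.ar)).length = m := by rw [List.length_drop]; omega
  refine ⟨_, _, _, u', l1, l2, ?_, hu', e, hw.symm⟩
  have := congrArg List.length hw
  simp only [List.length_append, l1, l3] at this
  omega

theorem mapIdx_congr' {α β : Type} (l : List α) (f g : ℕ → α → β) (h : ∀ j, ∀ a, j < l.length → f j a = g j a) :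
    l.mapIdx f = l.mapIdx g := by
  refine List.ext_getElem (by simp) fun j h1 h2 => ?_
  rw [List.getElem_mapIdx, List.getElem_mapIdx]
  exact h _ _ (by simpa using h1)

variable {L A : Type} [SemilatticeSup L] [OrderBot L] [AddCommGroup A] (K : Kei Q L) (μ : Q → Q → A)

/-- the next level -/
theorem lv_mem {D : List Piece} (hD : IsDiagram D) {c : ℕ × ℕ → Q} (hc : IsCol K D c)
    {t i : ℕ} {k : Kind} (h : D[t]? = some (k, i)) :
    (lv D c (t + 1), wtAt μ D c t) ∈ actsO K μ (k, i) (lv D c t) := by
  obtain ⟨l, u, r, u', hl, hu, hu', ho, e1, e2⟩ := split hD h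
  have hlen : (ori D t).length = i + k.ar + r.length := by
    rw [e1]; simp only [List.length_append]; omega
  refine ⟨l.mapIdx (fun j o => (o, c (t, j))), u.mapIdx (fun j o => (o, c (t, j + l.length))),
    r.mapIdx (fun j o => (o, c (t, j + (l ++ u).length))),
    (u'.mapIdx (fun j o => (o, c (t + 1, j + l.length))), wtAt μ D c t), by simp [hl], by simp [hu], ?_, ?_, ?_⟩
  · rw [lv, e1, List.mapIdx_append, List.mapIdx_append]
  · cases k with
    | cup o =>
      obtain rfl : u = [] := List.length_eq_zero_iff.1 hu
      have : u' = [o, !o] := by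
        simp only [Kind.ori, Option.some.injEq] at ho
        exact ho.symm
      subst this
      have hw : wtAt μ D c t = 0 := by
        simp only [wtAt, h]
      have := hc.cup t i o h
      simp only [List.mapIdx_nil, List.mapIdx_cons, colsO, Set.mem_setOf_eq, hw, hl, Nat.zero_add]
      refine ⟨c (t + 1, i), ?_⟩
      rw [show 1 + i = i + 1 by omega, ← this]
    | cap =>
      obtain ⟨x, y, rfl⟩ : ∃ x y, u = [x, y] := List.length_eq_two.1 hu
      have hw : wtAt μ D c t = 0 := by
        simp only [wtAt, h]
      simp only [Kind.ori] at ho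
      split_ifs at ho with hy
      simp only [Option.some.injEq] at ho
      subst ho
      have := hc.cap t i h
      simp only [List.mapIdx_nil, List.mapIdx_cons, colsO, Set.mem_setOf_eq, hw, hl, Nat.zero_add]
      refine ⟨?_, hy, trivial⟩
      rw [show 1 + i = i + 1 by omega, ← this]
    | cross s =>
      obtain ⟨x, y, rfl⟩ : ∃ x y, u = [x, y] := List.length_eq_two.1 hu
      simp only [Kind.ori, Option.some.injEq] at ho
      subst ho
      have g1 : (ori D t).getD i true = x := by
        rw [e1]; subst hl; simp
      have g2 : (ori D t).getD (i + 1) true = y := by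
        rw [e1]; subst hl; simp [List.getD]
      have hw : wtAt μ D c t = sg s x y • μ (c (t, i)) (c (t, i + 1)) := by
        simp only [wtAt, h, g1, g2]
      simp only [List.mapIdx_nil, List.mapIdx_cons, colsO, Set.mem_setOf_eq, hw, hl, Nat.zero_add]
      rw [show 1 + i = i + 1 by omega]
      cases s with
      | true =>
        obtain ⟨c1, c2⟩ := hc.crossT t i h
        rw [c1, c2]
        rfl
      | false =>
        obtain ⟨c1, c2⟩ := hc.crossF t i h
        rw [c1, c2]
        rfl
  · simp only [Prod.mk.injEq, and_true]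
    rw [lv, e2, List.mapIdx_append, List.mapIdx_append]
    congr 1
    · congr 1
      refine mapIdx_congr' _ _ _ fun j a hj => ?_
      rw [hc.left t i k j h (by omega)]
    · refine mapIdx_congr' _ _ _ fun j a hj => ?_
      have := hc.right t i k j h (by omega)
      have f1 : j + (l ++ u).length = i + k.ar + j := by
        simp only [List.length_append, hl, hu]; omega
      have f2 : j + (l ++ u').length = i + k.oar + j := by
        simp only [List.length_append, hl, hu']; omega
      rw [f1, f2, this]

theorem le_ls (v : List Q) {a : Q} (h : a ∈ v) : K.U a ≤ ls K v := by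
  induction v with
  | nil => simp at h
  | cons b v ih =>
    have e : ls K (b :: v) = K.U b ⊔ ls K v := rfl
    rw [e]
    rcases List.mem_cons.1 h with rfl | h
    · exact le_sup_left
    · exact (ih h).trans le_sup_right

theorem main {D : List Piece} (hD : IsDiagram D) {c : ℕ × ℕ → Q} (hc : IsCol K D c) :
    ∀ (B : List Piece) (t : ℕ) (A : List Piece), D = A ++ B → A.length = t →
      ∃ H : L, (H, ∑ j ∈ Finset.range B.length, wtAt μ D c (t + j)) ∈ St K μ B (lv D c t) ∧
        ∀ q, InR D q → t ≤ q.1 → K.U (c q) ≤ H := by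
  intro B
  induction B with
  | nil =>
    intro t A hA hAt
    rw [List.append_nil] at hA
    subst hA
    have hlen : ori D t = [] := by
      rw [ori, ← hAt, List.take_length]
      have h3 : runO D [] = some [] := hD
      rw [h3]
      rfl
    refine ⟨⊥, ⟨?_, ?_⟩, ?_⟩
    · rw [lv, hlen]; rfl
    · simp
    · rintro ⟨t', j⟩ hin ht'
      exfalso
      obtain ⟨h1, h2⟩ := hin
      simp only at h1 h2 ht'
      obtain rfl : t' = t := by omega
      rw [hlen] at h2
      simp at h2
  | cons q B ih =>
    obtain ⟨k, i⟩ := q
    intro t A hA hAt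
    have hget : D[t]? = some (k, i) := by
      rw [hA, ← hAt]; simp
    obtain ⟨H', hH', hq⟩ := ih (t + 1) (A ++ [(k, i)]) (by rw [hA]; simp) (by simp [hAt])
    refine ⟨lsO K (lv D c t) ⊔ H', ⟨_, lv_mem K μ hD hc hget, _, hH', ?_⟩, ?_⟩
    · refine Prod.ext rfl ?_
      simp only [List.length_cons]
      rw [Finset.sum_range_succ', add_comm]
      congr 1
      refine Finset.sum_congr rfl fun j _ => ?_
      rw [show t + (j + 1) = t + 1 + j by omega]
    · rintro ⟨t', j⟩ hin ht'
      rcases Nat.lt_or_ge t t' with h | h
      · exact (hq _ hin h).trans le_sup_right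
      · obtain rfl : t' = t := le_antisymm h ht'
        refine (le_ls K _ ?_).trans le_sup_left
        have hj : j < (ori D t').length := hin.2
        rw [lv, List.mem_map]
        refine ⟨((ori D t')[j], c (t', j)), ?_, rfl⟩
        rw [List.mem_mapIdx]
        exact ⟨j, hj, rfl⟩

end XLOW

theorem p_LOW : S_LOW := by
  intro Q L A _ _ _ K μ D c hD hc
  obtain ⟨H, hH, hq⟩ := XLOW.main K μ hD hc D 0 [] rfl rfl
  refine ⟨H, ?_, fun q hin => hq q hin (Nat.zero_le _)⟩
  have e : XLOW.lv D c 0 = [] := by
    rw [XLOW.lv, ori, List.take_zero]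
    rfl
  rw [e] at hH
  simpa using hH

end Pool.BraidIndex.Cf
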