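import Pool.Agent.Work.MP_9d4fac_cf.Interface

/-! Block MID: the crossings of a braid word act on the first `n` strands. -/

set_option autoImplicit false

namespace Pool.BraidIndex.Cf

open Pool.BraidIndex Pool.BraidIndex.Cox

namespace XMID

variable {Q L : Type} [SemilatticeSup L] [OrderBot L] (K : Kei Q L)

theorem ls_append (x y : List Q) : ls K (x ++ y) = ls K x ⊔ ls K y := by
  unfold ls
  induction x with
  | nil => simp
  | cons a x ih =>
    simp only [List.cons_append, List.map_cons, List.foldr_cons]
    rw [ih, sup_assoc]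

theorem ls_cons (a : Q) (y : List Q) : ls K (a :: y) = K.U a ⊔ ls K y := rfl

theorem ls_nil : ls K ([] : List Q) = ⊥ := rfl

theorem snd_map (v : List Q) : (v.map (fun c => (true, c))).map Prod.snd = v := by
  induction v with
  | nil => rfl
  | cons a v ih => simp

end XMID

open XMID in
theorem p_MID : S_MID := by
  intro Q L A _ _ _ K μ n w
  induction w with
  | nil =>
    intro X v V H e _ hv h
    refine ⟨v, 0, e, H, BW.nil v, hv, ?_, (zero_add e).symm, le_rfl, le_sup_right⟩
    simpa using h
  | cons y w ih =>
    obtain ⟨i, s⟩ := y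
    intro X v V H e hw hv h
    have hi : i + 1 < n := hw (i, s) (List.mem_cons_self ..)
    have hw' : IsBraidWord n w := fun z hz => hw z (List.mem_cons_of_mem _ hz)
    rw [List.map_cons, List.cons_append] at h
    obtain ⟨v1, ⟨l, u, r, u', hl, hu, hV, hu', hv1⟩, H1, hH1, hHe⟩ := h
    -- the decomposition of v
    obtain ⟨l0, a, b, r0, hvd, hl0⟩ : ∃ (l0 : List Q) (a b : Q) (r0 : List Q),
        v = l0 ++ [a, b] ++ r0 ∧ l0.length = i := by
      have h1 : i < v.length := by omega
      have h2 : i + 1 < v.length := by omega
      refine ⟨v.take i, v[i], v[i + 1], v.drop (i + 2), ?_, by rw [List.length_take]; omega⟩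
      conv_lhs => rw [← List.take_append_drop i v]
      rw [List.drop_eq_getElem_cons h1, List.drop_eq_getElem_cons h2]
      simp
    subst hvd
    have hV2 : (l0 ++ [a, b] ++ r0).map (fun c => (true, c)) ++ V =
        l0.map (fun c => (true, c)) ++ ([(true, a), (true, b)] ++ (r0.map (fun c => (true, c)) ++ V)) := by
      simp
    rw [hV2, List.append_assoc] at hV
    have hl' : (l0.map (fun c => (true, c))).length = l.length := by
      rw [List.length_map, hl0]
      exact hl.symm
    obtain ⟨e1, e2⟩ := List.append_inj hV hl'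
    have hu2 : u.length = 2 := hu
    obtain ⟨e3, e4⟩ := List.append_inj e2 (by rw [hu2]; rfl)
    rw [← e3] at hu'
    -- the colours behind the crossing
    have hu'' : u' = (if s then [(true, K.op a b), (true, a)] else [(true, b), (true, K.op b a)],
        sg s true true • μ a b) := hu'
    have hsg : sg s true true = if s then (1 : ℤ) else -1 := by
      unfold sg
      simp
    set m : List Q := if s then [K.op a b, a] else [b, K.op b a] with hm
    have hu1 : u'.1 = m.map (fun c => (true, c)) := by
      rw [hu'', hm]
      cases s <;> rfl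
    have hv11 : v1.1 = (l0 ++ m ++ r0).map (fun c => (true, c)) ++ V := by
      rw [hv1]
      change l ++ u'.1 ++ r = _
      rw [hu1, ← e1, ← e4]
      simp
    have hmlen : m.length = 2 := by
      rw [hm]
      cases s <;> rfl
    have hlen : (l0 ++ m ++ r0).length = n := by
      rw [← hv]
      simp only [List.length_append, hmlen, List.length_cons, List.length_nil]
    rw [hv11] at hH1
    obtain ⟨v', f1, f2, H', hB, hv'n, hS, hf, hls, hHle⟩ := ih X (l0 ++ m ++ r0) V H1.1 H1.2 hw' hlen hH1
    have hmls : ls K m ≤ ls K [a, b] := by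
      rw [hm]
      cases s
      · simp only [Bool.false_eq_true, if_false, ls_cons, ls_nil, sup_bot_eq]
        refine sup_le le_sup_right ((K.sub b a).trans ?_)
        rw [sup_comm]
      · simp only [if_true, ls_cons, ls_nil, sup_bot_eq]
        exact sup_le (K.sub a b) le_sup_left
    have hle : ls K (l0 ++ m ++ r0) ≤ ls K (l0 ++ [a, b] ++ r0) := by
      rw [ls_append, ls_append, ls_append, ls_append]
      exact sup_le_sup_right (sup_le_sup_left hmls _) _
    have hH : H = lsO K ((l0 ++ [a, b] ++ r0).map (fun c => (true, c)) ++ V) ⊔ H1.1 := congrArg Prod.fst hHe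
    have he : e = v1.2 + H1.2 := congrArg Prod.snd hHe
    have hv12 : v1.2 = (if s then (1 : ℤ) else -1) • μ a b := by
      rw [hv1]
      change u'.2 = _
      rw [hu'', hsg]
    have hlsO : lsO K ((l0 ++ [a, b] ++ r0).map (fun c => (true, c)) ++ V) =
        ls K (l0 ++ [a, b] ++ r0) ⊔ lsO K V := by
      unfold lsO
      rw [List.map_append, snd_map, ls_append]
    refine ⟨v', (if s then (1 : ℤ) else -1) • μ a b + f1, f2, H', ?_, hv'n, hS, ?_, hls.trans hle, ?_⟩
    · rw [← hl0]
      exact BW.cons l0 r0 a b s w v' f1 hB
    · rw [he, hv12, hf, add_assoc]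
    · rw [hH, hlsO]
      refine sup_le le_sup_left (hHle.trans ?_)
      exact sup_le_sup_right (sup_le_sup_right hle _) _

end Pool.BraidIndex.Cf
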