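import Pool.Agent.Work.MP_9d4fac_cf.Interface
import Pool.Agent.Work.MP_9d4fac_gt.S_localB

set_option autoImplicit false

namespace Pool.BraidIndex.Cf

open Pool.BraidIndex Pool.BraidIndex.Cox

namespace XR1

section
variable {Q L A : Type} [SemilatticeSup L] [OrderBot L] [AddCommGroup A] (K : Kei Q L) (μ : Q → Q → A)

theorem ls_nil : lsO K [] = ⊥ := rfl

theorem ls_cons (a : Bool × Q) (v : List (Bool × Q)) : lsO K (a :: v) = K.U a.2 ⊔ lsO K v := rfl

theorem ls_append (v w : List (Bool × Q)) : lsO K (v ++ w) = lsO K v ⊔ lsO K w := by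
  induction v with
  | nil => rw [List.nil_append, ls_nil, bot_sup_eq]
  | cons a v ih => rw [List.cons_append, ls_cons, ls_cons, ih, sup_assoc]

theorem low {B : List Piece} {w : List (Bool × Q)} {H : L × A} (h : H ∈ St K μ B w) :
    lsO K w ≤ H.1 := by
  rcases B with _ | ⟨q, D⟩
  · obtain ⟨rfl, rfl⟩ : w = [] ∧ H = (⊥, 0) := h
    exact le_of_eq (ls_nil K)
  · obtain ⟨v', _, H', _, rfl⟩ : ∃ v' ∈ actsO K μ q w, ∃ H' ∈ St K μ D v'.1,
      H = (lsO K w ⊔ H'.1, v'.2 + H'.2) := h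
    exact le_sup_left

theorem split (k : Kind) (l u r : List (Bool × Q)) (D : List Piece) (H : L × A)
    (h : u.length = k.ar) :
    H ∈ St K μ ((k, l.length) :: D) (l ++ u ++ r) ↔
      ∃ u' ∈ colsO K μ k u, ∃ H' ∈ St K μ D (l ++ u'.1 ++ r),
        H = (lsO K (l ++ u ++ r) ⊔ H'.1, u'.2 + H'.2) := by
  constructor
  · intro hH
    obtain ⟨v', hv', H', hH', rfl⟩ : ∃ v' ∈ actsO K μ (k, l.length) (l ++ u ++ r),
      ∃ H' ∈ St K μ D v'.1, H = (lsO K (l ++ u ++ r) ⊔ H'.1, v'.2 + H'.2) := hH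
    obtain ⟨l1, u1, r1, u1', e1, e2, e3, e4, rfl⟩ : ∃ (l1 u1 r1 : List (Bool × Q))
      (u1' : List (Bool × Q) × A), l1.length = l.length ∧
      u1.length = k.ar ∧ l ++ u ++ r = l1 ++ u1 ++ r1 ∧ u1' ∈ colsO K μ k u1 ∧
      v' = (l1 ++ u1'.1 ++ r1, u1'.2) := hv'
    rw [List.append_assoc, List.append_assoc] at e3
    obtain ⟨rfl, e5⟩ := List.append_inj e3 e1.symm
    obtain ⟨rfl, rfl⟩ := List.append_inj e5 (h.trans e2.symm)
    exact ⟨u1', e4, H', hH', rfl⟩
  · rintro ⟨u', hu', H', hH', rfl⟩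
    exact ⟨(l ++ u'.1 ++ r, u'.2), ⟨l, u, r, u', rfl, h, rfl, hu', rfl⟩, H', hH', rfl⟩

theorem mcup (o : Bool) (l r : List (Bool × Q)) (D : List Piece) (H : L × A) :
    H ∈ St K μ ((.cup o, l.length) :: D) (l ++ r) ↔
      ∃ c, ∃ H' ∈ St K μ D (l ++ (o, c) :: (!o, c) :: r), H = (lsO K (l ++ r) ⊔ H'.1, H'.2) := by
  have h := split K μ (.cup o) l [] r D H rfl
  rw [List.append_nil] at h
  rw [h]
  constructor
  · rintro ⟨u', ⟨c, rfl⟩, H', hH', rfl⟩
    refine ⟨c, H', by simpa using hH', ?_⟩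
    rw [zero_add]
  · rintro ⟨c, H', hH', rfl⟩
    refine ⟨([(o, c), (!o, c)], 0), ⟨c, rfl⟩, H', by simpa using hH', ?_⟩
    rw [zero_add]

theorem mcap (l r : List (Bool × Q)) (a b : Bool × Q) (D : List Piece) (H : L × A) :
    H ∈ St K μ ((.cap, l.length) :: D) (l ++ a :: b :: r) ↔
      a.2 = b.2 ∧ b.1 = !a.1 ∧ ∃ H' ∈ St K μ D (l ++ r),
        H = (lsO K (l ++ a :: b :: r) ⊔ H'.1, H'.2) := by
  have h := split K μ .cap l [a, b] r D H rfl
  have e : l ++ [a, b] ++ r = l ++ a :: b :: r := by simp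
  rw [e] at h
  rw [h]
  constructor
  · rintro ⟨u', ⟨hab, ho, rfl⟩, H', hH', rfl⟩
    refine ⟨hab, ho, H', by simpa using hH', ?_⟩
    rw [zero_add]
  · rintro ⟨hab, ho, H', hH', rfl⟩
    refine ⟨([], 0), ⟨hab, ho, rfl⟩, H', by simpa using hH', ?_⟩
    rw [zero_add]

theorem mtrue (l r : List (Bool × Q)) (a b : Bool × Q) (D : List Piece) (H : L × A) :
    H ∈ St K μ ((.cross true, l.length) :: D) (l ++ a :: b :: r) ↔
      ∃ H' ∈ St K μ D (l ++ (b.1, K.op a.2 b.2) :: a :: r),
        H = (lsO K (l ++ a :: b :: r) ⊔ H'.1, sg true a.1 b.1 • μ a.2 b.2 + H'.2) := by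
  have h := split K μ (.cross true) l [a, b] r D H rfl
  have e : l ++ [a, b] ++ r = l ++ a :: b :: r := by simp
  rw [e] at h
  rw [h]
  constructor
  · rintro ⟨u', hu', H', hH', rfl⟩
    obtain rfl : u' = ([(b.1, K.op a.2 b.2), a], sg true a.1 b.1 • μ a.2 b.2) := hu'
    exact ⟨H', by simpa using hH', rfl⟩
  · rintro ⟨H', hH', rfl⟩
    exact ⟨([(b.1, K.op a.2 b.2), a], sg true a.1 b.1 • μ a.2 b.2), rfl, H',
      by simpa using hH', rfl⟩

theorem mfalse (l r : List (Bool × Q)) (a b : Bool × Q) (D : List Piece) (H : L × A) :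
    H ∈ St K μ ((.cross false, l.length) :: D) (l ++ a :: b :: r) ↔
      ∃ H' ∈ St K μ D (l ++ b :: (a.1, K.op b.2 a.2) :: r),
        H = (lsO K (l ++ a :: b :: r) ⊔ H'.1, sg false a.1 b.1 • μ a.2 b.2 + H'.2) := by
  have h := split K μ (.cross false) l [a, b] r D H rfl
  have e : l ++ [a, b] ++ r = l ++ a :: b :: r := by simp
  rw [e] at h
  rw [h]
  constructor
  · rintro ⟨u', hu', H', hH', rfl⟩
    obtain rfl : u' = ([b, (a.1, K.op b.2 a.2)], sg false a.1 b.1 • μ a.2 b.2) := hu'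
    exact ⟨H', by simpa using hH', rfl⟩
  · rintro ⟨H', hH', rfl⟩
    exact ⟨([b, (a.1, K.op b.2 a.2)], sg false a.1 b.1 • μ a.2 b.2), rfl, H',
      by simpa using hH', rfl⟩

/-- the colours between two pieces are absorbed -/
theorem ab2 {v x h : L} (hx : x ≤ v ⊔ h) : v ⊔ (x ⊔ h) = v ⊔ h :=
  le_antisymm (sup_le le_sup_left (sup_le hx le_sup_right)) (sup_le le_sup_left (le_sup_right.trans le_sup_right))

end

end XR1

open XR1 in
theorem p_R1 : S_R1 := by
  constructor
  · intro o s i Q L A _ _ _ K μ hW B os hX hY v hv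
    ext H
    obtain ⟨f1, w1, s1, g1⟩ := LB.fits hX
    simp only [Kind.ar] at f1
    have hlv : os.length = v.length := by rw [← hv, List.length_map]
    obtain ⟨l, u, r, rfl, hl, hu⟩ := LB.dec3 v i 0 (by omega)
    rw [List.length_eq_zero_iff] at hu
    subst hu hl
    rw [List.append_nil]
    show H ∈ St K μ ((.cup o, l.length) :: (.cross s, l.length) :: B) (l ++ r) ↔
      H ∈ St K μ ((.cup (!o), l.length) :: B) (l ++ r)
    rw [mcup, mcup]
    have key : ∀ (c : Q) (H1 : L × A),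
        H1 ∈ St K μ ((.cross s, l.length) :: B) (l ++ (o, c) :: (!o, c) :: r) ↔
        H1 ∈ St K μ B (l ++ (!o, c) :: (!!o, c) :: r) := by
      intro c H1
      have key2 : H1 ∈ St K μ ((.cross s, l.length) :: B) (l ++ (o, c) :: (!o, c) :: r) ↔
          ∃ H' ∈ St K μ B (l ++ (!o, c) :: (!!o, c) :: r),
            H1 = (lsO K (l ++ (!o, c) :: (!!o, c) :: r) ⊔ H'.1, H'.2) := by
        have e1 : lsO K (l ++ (o, c) :: (!o, c) :: r) = lsO K (l ++ (!o, c) :: (!!o, c) :: r) := by
          simp only [ls_append, ls_cons]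
        cases s
        · rw [mfalse]
          simp only [K.idem, hW.2.1, smul_zero, zero_add, Bool.not_not, e1]
        · rw [mtrue]
          simp only [K.idem, hW.2.1, smul_zero, zero_add, Bool.not_not, e1]
      rw [key2]
      constructor
      · rintro ⟨H', hH', rfl⟩
        rw [sup_eq_right.2 (low K μ hH')]
        exact hH'
      · intro hH
        refine ⟨H1, hH, ?_⟩
        rw [sup_eq_right.2 (low K μ hH)]
    simp only [key]
  · intro s i Q L A _ _ _ K μ hW B os hX hY v hv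
    ext H
    obtain ⟨f1, w1, s1, g1⟩ := LB.fits hX
    simp only [Kind.ar] at f1
    have hlv : os.length = v.length := by rw [← hv, List.length_map]
    obtain ⟨l, a, b, r, rfl, rfl⟩ := LB.dec2 v i (by omega)
    obtain ⟨a1, a2⟩ := a
    obtain ⟨b1, b2⟩ := b
    show H ∈ St K μ ((.cross s, l.length) :: (.cap, l.length) :: B) (l ++ (a1, a2) :: (b1, b2) :: r) ↔
      H ∈ St K μ ((.cap, l.length) :: B) (l ++ (a1, a2) :: (b1, b2) :: r)
    have e1 : K.op a2 b2 = a2 ↔ a2 = b2 := by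
      constructor
      · intro h
        have h2 := K.invo a2 b2
        rw [h, K.idem] at h2
        exact h2
      · rintro rfl
        exact K.idem _
    have e2 : b2 = K.op b2 a2 ↔ a2 = b2 := by
      constructor
      · intro h
        have h2 := K.invo b2 a2
        rw [← h, K.idem] at h2
        exact h2.symm
      · rintro rfl
        exact (K.idem _).symm
    have e3 : a1 = !b1 ↔ b1 = !a1 := by
      constructor
      · rintro rfl
        exact (Bool.not_not _).symm
      · rintro rfl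
        exact (Bool.not_not _).symm
    rw [mcap]
    cases s
    · rw [mfalse]
      simp only [mcap, e2, e3]
      constructor
      · rintro ⟨H1, ⟨rfl, ho, H', hH', rfl⟩, rfl⟩
        refine ⟨rfl, ho, H', hH', ?_⟩
        simp only [hW.2.1, smul_zero, zero_add]
        rw [ab2]
        simp only [ls_append, ls_cons, K.idem]
        exact le_sup_left
      · rintro ⟨rfl, ho, H', hH', rfl⟩
        refine ⟨_, ⟨rfl, ho, H', hH', rfl⟩, ?_⟩
        simp only [hW.2.1, smul_zero, zero_add]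
        rw [ab2]
        simp only [ls_append, ls_cons, K.idem]
        exact le_sup_left
    · rw [mtrue]
      simp only [mcap, e1, e3]
      constructor
      · rintro ⟨H1, ⟨rfl, ho, H', hH', rfl⟩, rfl⟩
        refine ⟨rfl, ho, H', hH', ?_⟩
        simp only [hW.2.1, smul_zero, zero_add]
        rw [ab2]
        simp only [ls_append, ls_cons, K.idem]
        exact le_sup_left
      · rintro ⟨rfl, ho, H', hH', rfl⟩
        refine ⟨_, ⟨rfl, ho, H', hH', rfl⟩, ?_⟩
        simp only [hW.2.1, smul_zero, zero_add]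
        rw [ab2]
        simp only [ls_append, ls_cons, K.idem]
        exact le_sup_left

end Pool.BraidIndex.Cf
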