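import Pool.Agent.Work.MP_9d4fac_cf.Interface

/-! # Block R2: the second Reidemeister move -/

set_option autoImplicit false

namespace Pool.BraidIndex.Cf

open Pool.BraidIndex Pool.BraidIndex.Cox

namespace XR2

section
variable {Q L A : Type} [SemilatticeSup L] [OrderBot L] [AddCommGroup A] (K : Kei Q L) (μ : Q → Q → A)

theorem ls_cons (a : Q) (v : List Q) : ls K (a :: v) = K.U a ⊔ ls K v := rfl

theorem ls_append (v w : List Q) : ls K (v ++ w) = ls K v ⊔ ls K w := by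
  induction v with
  | nil =>
    rw [List.nil_append]
    exact (bot_sup_eq _).symm
  | cons a v ih => rw [List.cons_append, ls_cons, ls_cons, ih, sup_assoc]

theorem lsO_eq (l r : List (Bool × Q)) (a b : Bool × Q) : lsO K (l ++ a :: b :: r) =
    ls K (l.map Prod.snd) ⊔ (K.U a.2 ⊔ (K.U b.2 ⊔ ls K (r.map Prod.snd))) := by
  unfold lsO
  rw [List.map_append, List.map_cons, List.map_cons, ls_append, ls_cons, ls_cons]

theorem low {B : List Piece} {w : List (Bool × Q)} {H : L × A} (h : H ∈ St K μ B w) : lsO K w ≤ H.1 := by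
  rcases B with _ | ⟨q, D⟩
  · obtain ⟨rfl, rfl⟩ : w = [] ∧ H = (⊥, 0) := h
    exact le_rfl
  · obtain ⟨v', _, H', _, rfl⟩ : ∃ v' ∈ actsO K μ q w, ∃ H' ∈ St K μ D v'.1,
      H = (lsO K w ⊔ H'.1, v'.2 + H'.2) := h
    exact le_sup_left

theorem mcross (s : Bool) (l r : List (Bool × Q)) (a b : Bool × Q) (D : List Piece) (H : L × A) :
    H ∈ St K μ ((.cross s, l.length) :: D) (l ++ a :: b :: r) ↔
      ∃ H' ∈ St K μ D (l ++ (if s then [(b.1, K.op a.2 b.2), a] else [b, (a.1, K.op b.2 a.2)]) ++ r),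
        H = (lsO K (l ++ a :: b :: r) ⊔ H'.1, sg s a.1 b.1 • μ a.2 b.2 + H'.2) := by
  constructor
  · intro hH
    obtain ⟨v', hv', H', hH', rfl⟩ : ∃ v' ∈ actsO K μ (.cross s, l.length) (l ++ a :: b :: r),
      ∃ H' ∈ St K μ D v'.1, H = (lsO K (l ++ a :: b :: r) ⊔ H'.1, v'.2 + H'.2) := hH
    obtain ⟨l1, u1, r1, u1', e1, e2, e3, e4, rfl⟩ : ∃ (l1 u1 r1 : List (Bool × Q)) (u1' : List (Bool × Q) × A),
      l1.length = l.length ∧ u1.length = 2 ∧ l ++ a :: b :: r = l1 ++ u1 ++ r1 ∧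
        u1' ∈ colsO K μ (.cross s) u1 ∧ v' = (l1 ++ u1'.1 ++ r1, u1'.2) := hv'
    rw [List.append_assoc] at e3
    obtain ⟨rfl, e5⟩ := List.append_inj e3 e1.symm
    obtain ⟨x, y, rfl⟩ := List.length_eq_two.1 e2
    have e6 : a = x ∧ b = y ∧ r = r1 := by simpa using e5
    obtain ⟨rfl, rfl, rfl⟩ := e6
    obtain rfl : u1' = (if s then [(b.1, K.op a.2 b.2), a] else [b, (a.1, K.op b.2 a.2)],
      sg s a.1 b.1 • μ a.2 b.2) := e4
    exact ⟨H', hH', rfl⟩
  · rintro ⟨H', hH', rfl⟩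
    refine ⟨(l ++ (if s then [(b.1, K.op a.2 b.2), a] else [b, (a.1, K.op b.2 a.2)]) ++ r,
      sg s a.1 b.1 • μ a.2 b.2), ⟨l, [a, b], r, (if s then [(b.1, K.op a.2 b.2), a] else
      [b, (a.1, K.op b.2 a.2)], sg s a.1 b.1 • μ a.2 b.2), rfl, rfl, by simp, rfl, rfl⟩, H', hH', rfl⟩

end

theorem sg_neg (s x y : Bool) : sg (!s) y x = - sg s x y := by
  revert s x y
  decide

theorem len {s : Bool} {i : ℕ} {D : List Piece} {os : List Bool}
    (h : (runO ((.cross s, i) :: D) os).isSome) : i + 2 ≤ os.length := by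
  by_contra hcon
  have h' : ((stepO (.cross s, i) os).bind (runO D)).isSome := h
  unfold stepO at h'
  rw [if_neg (show ¬ ((Kind.cross s, i) : Piece).2 + ((Kind.cross s, i) : Piece).1.ar ≤ os.length from hcon)] at h'
  exact absurd h' (by simp)

end XR2

open XR2 in
theorem p_R2 : S_R2 := by
  intro s i Q L A _ _ _ K μ hμ B os hX hY v hv
  obtain ⟨hsym, -, hop⟩ := hμ
  have hlen : i + 2 ≤ v.length := by
    have h1 := len hX
    rw [← hv, List.length_map] at h1
    exact h1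
  obtain ⟨l, a, b, r, rfl, rfl⟩ : ∃ l a b r, v = l ++ a :: b :: r ∧ l.length = i := by
    refine ⟨v.take i, v[i], v[i + 1], v.drop (i + 2), ?_, ?_⟩
    · rw [← List.drop_eq_getElem_cons, ← List.drop_eq_getElem_cons, List.take_append_drop]
    · rw [List.length_take]
      omega
  have hneg : ∀ (z : ℤ) (m e : A), z • m + (-z • m + e) = e := by
    intro z m e
    rw [neg_smul, add_neg_cancel_left]
  ext ⟨H, e⟩
  show (H, e) ∈ St K μ ((.cross s, l.length) :: (.cross (!s), l.length) :: B) (l ++ a :: b :: r) ↔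
    (H, e) ∈ St K μ B (l ++ a :: b :: r)
  rw [mcross]
  cases s
  · simp only [Bool.false_eq_true, if_false, Bool.not_false, List.append_assoc, List.cons_append,
      List.nil_append]
    have h2 : ∀ H1 : L × A, H1 ∈ St K μ ((.cross true, l.length) :: B) (l ++ b :: (a.1, K.op b.2 a.2) :: r) ↔
        ∃ H' ∈ St K μ B (l ++ a :: b :: r), H1 = (lsO K (l ++ b :: (a.1, K.op b.2 a.2) :: r) ⊔ H'.1,
          (- sg false a.1 b.1) • μ a.2 b.2 + H'.2) := by
      intro H1
      rw [mcross]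
      simp only [if_true, List.append_assoc, List.cons_append, List.nil_append, K.invo, Prod.mk.eta]
      have e1 : sg true b.1 a.1 = - sg false a.1 b.1 := sg_neg false a.1 b.1
      have e2 : μ b.2 (K.op b.2 a.2) = μ a.2 b.2 := by rw [hsym, hop]
      rw [e1, e2]
    have hs := K.sub b.2 a.2
    have habs : ∀ H' : L × A, H' ∈ St K μ B (l ++ a :: b :: r) →
        lsO K (l ++ a :: b :: r) ⊔ (lsO K (l ++ b :: (a.1, K.op b.2 a.2) :: r) ⊔ H'.1) = H'.1 := by
      intro H' hH'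
      have h := low K μ hH'
      have h1 : lsO K (l ++ b :: (a.1, K.op b.2 a.2) :: r) ≤ H'.1 := by
        rw [lsO_eq] at h ⊢
        simp only [sup_le_iff] at h ⊢
        exact ⟨h.1, h.2.2.1, hs.trans (sup_le h.2.2.1 h.2.1), h.2.2.2⟩
      rw [sup_eq_right.2 h1, sup_eq_right.2 h]
    constructor
    · rintro ⟨H1, hH1, h3⟩
      obtain ⟨H', hH', rfl⟩ := (h2 H1).1 hH1
      simp only [Prod.mk.injEq] at h3
      obtain ⟨rfl, rfl⟩ := h3
      rw [habs H' hH', hneg]
      exact hH'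
    · intro hH
      refine ⟨_, (h2 _).2 ⟨(H, e), hH, rfl⟩, ?_⟩
      simp only
      rw [habs (H, e) hH, hneg]
  · simp only [if_true, Bool.not_true, List.append_assoc, List.cons_append, List.nil_append]
    have h2 : ∀ H1 : L × A, H1 ∈ St K μ ((.cross false, l.length) :: B) (l ++ (b.1, K.op a.2 b.2) :: a :: r) ↔
        ∃ H' ∈ St K μ B (l ++ a :: b :: r), H1 = (lsO K (l ++ (b.1, K.op a.2 b.2) :: a :: r) ⊔ H'.1,
          (- sg true a.1 b.1) • μ a.2 b.2 + H'.2) := by
      intro H1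
      rw [mcross]
      simp only [Bool.false_eq_true, if_false, List.append_assoc, List.cons_append, List.nil_append,
        K.invo, Prod.mk.eta]
      have e1 : sg false b.1 a.1 = - sg true a.1 b.1 := sg_neg true a.1 b.1
      have e2 : μ (K.op a.2 b.2) a.2 = μ a.2 b.2 := by rw [hop, hsym]
      rw [e1, e2]
    have hs := K.sub a.2 b.2
    have habs : ∀ H' : L × A, H' ∈ St K μ B (l ++ a :: b :: r) →
        lsO K (l ++ a :: b :: r) ⊔ (lsO K (l ++ (b.1, K.op a.2 b.2) :: a :: r) ⊔ H'.1) = H'.1 := by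
      intro H' hH'
      have h := low K μ hH'
      have h1 : lsO K (l ++ (b.1, K.op a.2 b.2) :: a :: r) ≤ H'.1 := by
        rw [lsO_eq] at h ⊢
        simp only [sup_le_iff] at h ⊢
        exact ⟨h.1, hs.trans (sup_le h.2.1 h.2.2.1), h.2.1, h.2.2.2⟩
      rw [sup_eq_right.2 h1, sup_eq_right.2 h]
    constructor
    · rintro ⟨H1, hH1, h3⟩
      obtain ⟨H', hH', rfl⟩ := (h2 H1).1 hH1
      simp only [Prod.mk.injEq] at h3
      obtain ⟨rfl, rfl⟩ := h3
      rw [habs H' hH', hneg]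
      exact hH'
    · intro hH
      refine ⟨_, (h2 _).2 ⟨(H, e), hH, rfl⟩, ?_⟩
      simp only
      rw [habs (H, e) hH, hneg]

end Pool.BraidIndex.Cf
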