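import Pool.Agent.Work.MP_9d4fac_cf.Interface

/-! # Block R3: the third Reidemeister move -/

set_option autoImplicit false

namespace Pool.BraidIndex.Cf

open Pool.BraidIndex Pool.BraidIndex.Cox

namespace XR3

section
variable {Q L A : Type} [SemilatticeSup L] [OrderBot L] [AddCommGroup A] (K : Kei Q L) (μ : Q → Q → A)

theorem ls_cons (a : Q) (v : List Q) : ls K (a :: v) = K.U a ⊔ ls K v := rfl

theorem ls_append (v w : List Q) : ls K (v ++ w) = ls K v ⊔ ls K w := by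
  induction v with
  | nil =>
    rw [List.nil_append]
    exact (bot_sup_eq _).symm
  | cons a v ih => rw [List.cons_append, ls_cons, ls_cons, ih, sup_assoc]

theorem lsO_eq (l r : List (Bool × Q)) (a b c : Bool × Q) : lsO K (l ++ a :: b :: c :: r) =
    ls K (l.map Prod.snd) ⊔ (K.U a.2 ⊔ (K.U b.2 ⊔ (K.U c.2 ⊔ ls K (r.map Prod.snd)))) := by
  unfold lsO
  rw [List.map_append, List.map_cons, List.map_cons, List.map_cons, ls_append, ls_cons, ls_cons, ls_cons]

theorem mcross (s : Bool) (l r : List (Bool × Q)) (a b : Bool × Q) (D : List Piece) (H : L × A) :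
    H ∈ St K μ ((.cross s, l.length) :: D) (l ++ a :: b :: r) ↔
      ∃ H' ∈ St K μ D (l ++ (if s then [(b.1, K.op a.2 b.2), a] else [b, (a.1, K.op b.2 a.2)]) ++ r),
        H = (lsO K (l ++ a :: b :: r) ⊔ H'.1, sg s a.1 b.1 • μ a.2 b.2 + H'.2) := by
  constructor
  · intro hH
    obtain ⟨v', hv', H', hH', rfl⟩ : ∃ v' ∈ actsO K μ (.cross s, l.length) (l ++ a :: b :: r),
      ∃ H' ∈ St K μ D v'.1, H = (lsO K (l ++ a :: b :: r) ⊔ H'.1, v'.2 + H'.2) := hH
    obtain ⟨l1, u1, r1, u1', e1, e2, e3, e4, rfl⟩ : ∃ (l1 u1 r1 : List (Bool × Q)) (u1' : List (Bool × Q) × A),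
      l1.length = l.length ∧ u1.length = 2 ∧ l ++ a :: b :: r = l1 ++ u1 ++ r1 ∧
        u1' ∈ colsO K μ (.cross s) u1 ∧ v' = (l1 ++ u1'.1 ++ r1, u1'.2) := hv'
    rw [List.append_assoc] at e3
    obtain ⟨rfl, e5⟩ := List.append_inj e3 e1.symm
    obtain ⟨x, y, rfl⟩ := List.length_eq_two.1 e2
    have e6 : a = x ∧ b = y ∧ r = r1 := by simpa using e5
    obtain ⟨rfl, rfl, rfl⟩ := e6
    obtain rfl : u1' = (if s then [(b.1, K.op a.2 b.2), a] else [b, (a.1, K.op b.2 a.2)],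
      sg s a.1 b.1 • μ a.2 b.2) := e4
    exact ⟨H', hH', rfl⟩
  · rintro ⟨H', hH', rfl⟩
    refine ⟨(l ++ (if s then [(b.1, K.op a.2 b.2), a] else [b, (a.1, K.op b.2 a.2)]) ++ r,
      sg s a.1 b.1 • μ a.2 b.2), ⟨l, [a, b], r, (if s then [(b.1, K.op a.2 b.2), a] else
      [b, (a.1, K.op b.2 a.2)], sg s a.1 b.1 • μ a.2 b.2), rfl, rfl, by simp, rfl, rfl⟩, H', hH', rfl⟩

theorem mtrue (l r : List (Bool × Q)) (a b : Bool × Q) (D : List Piece) (H : L × A) :
    H ∈ St K μ ((.cross true, l.length) :: D) (l ++ a :: b :: r) ↔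
      ∃ H' ∈ St K μ D (l ++ (b.1, K.op a.2 b.2) :: a :: r),
        H = (lsO K (l ++ a :: b :: r) ⊔ H'.1, sg true a.1 b.1 • μ a.2 b.2 + H'.2) := by
  have h := mcross K μ true l r a b D H
  simpa only [if_true, List.append_assoc, List.cons_append, List.nil_append] using h

theorem mfalse (l r : List (Bool × Q)) (a b : Bool × Q) (D : List Piece) (H : L × A) :
    H ∈ St K μ ((.cross false, l.length) :: D) (l ++ a :: b :: r) ↔
      ∃ H' ∈ St K μ D (l ++ b :: (a.1, K.op b.2 a.2) :: r),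
        H = (lsO K (l ++ a :: b :: r) ⊔ H'.1, sg false a.1 b.1 • μ a.2 b.2 + H'.2) := by
  have h := mcross K μ false l r a b D H
  simpa only [Bool.false_eq_true, if_false, List.append_assoc, List.cons_append, List.nil_append] using h

theorem mtrue1 (l r : List (Bool × Q)) (x a b : Bool × Q) (D : List Piece) (H : L × A) :
    H ∈ St K μ ((.cross true, l.length + 1) :: D) (l ++ x :: a :: b :: r) ↔
      ∃ H' ∈ St K μ D (l ++ x :: (b.1, K.op a.2 b.2) :: a :: r),
        H = (lsO K (l ++ x :: a :: b :: r) ⊔ H'.1, sg true a.1 b.1 • μ a.2 b.2 + H'.2) := by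
  have h := mtrue K μ (l ++ [x]) r a b D H
  simpa only [List.append_assoc, List.cons_append, List.nil_append, List.length_append,
    List.length_cons, List.length_nil, Nat.zero_add] using h

theorem mfalse1 (l r : List (Bool × Q)) (x a b : Bool × Q) (D : List Piece) (H : L × A) :
    H ∈ St K μ ((.cross false, l.length + 1) :: D) (l ++ x :: a :: b :: r) ↔
      ∃ H' ∈ St K μ D (l ++ x :: b :: (a.1, K.op b.2 a.2) :: r),
        H = (lsO K (l ++ x :: a :: b :: r) ⊔ H'.1, sg false a.1 b.1 • μ a.2 b.2 + H'.2) := by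
  have h := mfalse K μ (l ++ [x]) r a b D H
  simpa only [List.append_assoc, List.cons_append, List.nil_append, List.length_append,
    List.length_cons, List.length_nil, Nat.zero_add] using h

/-- the colours between two pieces are absorbed -/
theorem ab3 {v x y h : L} (hx : x ≤ v) (hy : y ≤ v) : v ⊔ (x ⊔ (y ⊔ h)) = v ⊔ h :=
  le_antisymm (sup_le le_sup_left (sup_le (hx.trans le_sup_left) (sup_le (hy.trans le_sup_left) le_sup_right)))
    (sup_le le_sup_left ((le_sup_right.trans le_sup_right).trans le_sup_right))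

theorem swap3 (x y z e : A) : x + (y + (z + e)) = z + (y + (x + e)) := by abel

end

theorem len {s : Bool} {i : ℕ} {D : List Piece} {os : List Bool}
    (h : (runO ((.cross s, i) :: D) os).isSome) : i + 2 ≤ os.length := by
  by_contra hcon
  have h' : ((stepO (.cross s, i) os).bind (runO D)).isSome := h
  unfold stepO at h'
  rw [if_neg (show ¬ ((Kind.cross s, i) : Piece).2 + ((Kind.cross s, i) : Piece).1.ar ≤ os.length from hcon)] at h'
  exact absurd h' (by simp)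

end XR3

open XR3 in
theorem p_R3 : S_R3 := by
  intro s i Q L A _ _ _ K μ hμ B os hX hY v hv
  obtain ⟨hsym, -, hop⟩ := hμ
  have hlen : i + 3 ≤ v.length := by
    have h1 := len hY
    rw [← hv, List.length_map] at h1
    omega
  obtain ⟨l, a, b, c, r, rfl, rfl⟩ : ∃ l a b c r, v = l ++ a :: b :: c :: r ∧ l.length = i := by
    refine ⟨v.take i, v[i], v[i + 1], v[i + 2], v.drop (i + 3), ?_, ?_⟩
    · rw [← List.drop_eq_getElem_cons, ← List.drop_eq_getElem_cons, ← List.drop_eq_getElem_cons,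
        List.take_append_drop]
    · rw [List.length_take]
      omega
  have le3 : ∀ x y z : Bool × Q, K.U x.2 ≤ lsO K (l ++ a :: b :: c :: r) → K.U y.2 ≤ lsO K (l ++ a :: b :: c :: r) →
      K.U z.2 ≤ lsO K (l ++ a :: b :: c :: r) → lsO K (l ++ x :: y :: z :: r) ≤ lsO K (l ++ a :: b :: c :: r) := by
    intro x y z hx hy hz
    rw [lsO_eq K l r x y z]
    refine sup_le ?_ (sup_le hx (sup_le hy (sup_le hz ?_)))
    · rw [lsO_eq]
      exact le_sup_left
    · rw [lsO_eq]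
      exact ((le_sup_right.trans le_sup_right).trans le_sup_right).trans le_sup_right
  have fb1 : K.U a.2 ≤ lsO K (l ++ a :: b :: c :: r) := by
    rw [lsO_eq]
    exact le_sup_left.trans le_sup_right
  have fb2 : K.U b.2 ≤ lsO K (l ++ a :: b :: c :: r) := by
    rw [lsO_eq]
    exact (le_sup_left.trans le_sup_right).trans le_sup_right
  have fb3 : K.U c.2 ≤ lsO K (l ++ a :: b :: c :: r) := by
    rw [lsO_eq]
    exact ((le_sup_left.trans le_sup_right).trans le_sup_right).trans le_sup_right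
  have so : ∀ x y : Q, K.U x ≤ lsO K (l ++ a :: b :: c :: r) → K.U y ≤ lsO K (l ++ a :: b :: c :: r) →
      K.U (K.op x y) ≤ lsO K (l ++ a :: b :: c :: r) := fun x y hx hy => (K.sub x y).trans (sup_le hx hy)
  ext H
  show H ∈ St K μ ((.cross s, l.length) :: (.cross s, l.length + 1) :: (.cross s, l.length) :: B)
    (l ++ a :: b :: c :: r) ↔
    H ∈ St K μ ((.cross s, l.length + 1) :: (.cross s, l.length) :: (.cross s, l.length + 1) :: B)
    (l ++ a :: b :: c :: r)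
  cases s
  · rw [mfalse, mfalse1]
    simp only [mfalse, mfalse1]
    have h1 := le3 b (a.1, K.op b.2 a.2) c fb2 (so _ _ fb2 fb1) fb3
    have h2 := le3 b c (a.1, K.op c.2 (K.op b.2 a.2)) fb2 fb3 (so _ _ fb3 (so _ _ fb2 fb1))
    have h3 := le3 a c (b.1, K.op c.2 b.2) fb1 fb3 (so _ _ fb3 fb2)
    have h4 := le3 c (a.1, K.op c.2 a.2) (b.1, K.op c.2 b.2) fb3 (so _ _ fb3 fb1) (so _ _ fb3 fb2)
    have w1 : μ (K.op b.2 a.2) c.2 = μ a.2 c.2 := hop _ _ _
    have w2 : μ (K.op c.2 a.2) (K.op c.2 b.2) = μ a.2 b.2 := by rw [hop, hsym, hop, hsym]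
    constructor
    · rintro ⟨H1, ⟨H2, ⟨H', hH', rfl⟩, rfl⟩, rfl⟩
      refine ⟨_, ⟨_, ⟨H', ?_, rfl⟩, rfl⟩, ?_⟩
      · rw [← K.dist]
        exact hH'
      · simp only
        rw [ab3 h1 h2, ab3 h3 h4, w1, w2, swap3]
    · rintro ⟨H1, ⟨H2, ⟨H', hH', rfl⟩, rfl⟩, rfl⟩
      refine ⟨_, ⟨_, ⟨H', ?_, rfl⟩, rfl⟩, ?_⟩
      · rw [K.dist]
        exact hH'
      · simp only
        rw [ab3 h1 h2, ab3 h3 h4, w1, w2, swap3]
  · rw [mtrue, mtrue1]
    simp only [mtrue, mtrue1]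
    have h1 := le3 (b.1, K.op a.2 b.2) a c (so _ _ fb1 fb2) fb1 fb3
    have h2 := le3 (b.1, K.op a.2 b.2) (c.1, K.op a.2 c.2) a (so _ _ fb1 fb2) (so _ _ fb1 fb3) fb1
    have h3 := le3 a (c.1, K.op b.2 c.2) b fb1 (so _ _ fb2 fb3) fb2
    have h4 := le3 (c.1, K.op a.2 (K.op b.2 c.2)) a b (so _ _ fb1 (so _ _ fb2 fb3)) fb1 fb2
    have w1 : μ a.2 (K.op b.2 c.2) = μ a.2 c.2 := by rw [hsym, hop, hsym]
    have w2 : μ (K.op a.2 b.2) (K.op a.2 c.2) = μ b.2 c.2 := by rw [hop, hsym, hop, hsym]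
    constructor
    · rintro ⟨H1, ⟨H2, ⟨H', hH', rfl⟩, rfl⟩, rfl⟩
      refine ⟨_, ⟨_, ⟨H', ?_, rfl⟩, rfl⟩, ?_⟩
      · rw [K.dist]
        exact hH'
      · simp only
        rw [ab3 h1 h2, ab3 h3 h4, w1, w2, swap3]
    · rintro ⟨H1, ⟨H2, ⟨H', hH', rfl⟩, rfl⟩, rfl⟩
      refine ⟨_, ⟨_, ⟨H', ?_, rfl⟩, rfl⟩, ?_⟩
      · rw [← K.dist]
        exact hH'
      · simp only
        rw [ab3 h1 h2, ab3 h3 h4, w1, w2, swap3]

end Pool.BraidIndex.Cf
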