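import Pool.Agent.Work.MP_9d4fac_cf.Interface

/-! # Block SCA: a strand slides over or under a cap (helper1) -/

set_option autoImplicit false

namespace Pool.BraidIndex.Cf

open Pool.BraidIndex Pool.BraidIndex.Cox

namespace XSCA

section
variable {Q L A : Type} [SemilatticeSup L] [OrderBot L] [AddCommGroup A] (K : Kei Q L) (μ : Q → Q → A)

theorem ls_cons (a : Q) (v : List Q) : ls K (a :: v) = K.U a ⊔ ls K v := rfl

theorem ls_append (v w : List Q) : ls K (v ++ w) = ls K v ⊔ ls K w := by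
  induction v with
  | nil =>
    rw [List.nil_append]
    exact (bot_sup_eq _).symm
  | cons a v ih => rw [List.cons_append, ls_cons, ls_cons, ih, sup_assoc]

theorem lsO3 (l r : List (Bool × Q)) (a b c : Bool × Q) : lsO K (l ++ a :: b :: c :: r) =
    ls K (l.map Prod.snd) ⊔ (K.U a.2 ⊔ (K.U b.2 ⊔ (K.U c.2 ⊔ ls K (r.map Prod.snd)))) := by
  unfold lsO
  rw [List.map_append, List.map_cons, List.map_cons, List.map_cons, ls_append, ls_cons, ls_cons,
    ls_cons]

theorem mcross (s : Bool) (l r : List (Bool × Q)) (a b : Bool × Q) (D : List Piece) (H : L × A) :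
    H ∈ St K μ ((.cross s, l.length) :: D) (l ++ a :: b :: r) ↔
      ∃ H' ∈ St K μ D (l ++ (if s then [(b.1, K.op a.2 b.2), a] else [b, (a.1, K.op b.2 a.2)]) ++ r),
        H = (lsO K (l ++ a :: b :: r) ⊔ H'.1, sg s a.1 b.1 • μ a.2 b.2 + H'.2) := by
  constructor
  · intro hH
    obtain ⟨v', hv', H', hH', rfl⟩ : ∃ v' ∈ actsO K μ (.cross s, l.length) (l ++ a :: b :: r),
      ∃ H' ∈ St K μ D v'.1, H = (lsO K (l ++ a :: b :: r) ⊔ H'.1, v'.2 + H'.2) := hH
    obtain ⟨l1, u1, r1, u1', e1, e2, e3, e4, rfl⟩ : ∃ (l1 u1 r1 : List (Bool × Q)) (u1' : List (Bool × Q) × A),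
      l1.length = l.length ∧ u1.length = 2 ∧ l ++ a :: b :: r = l1 ++ u1 ++ r1 ∧
        u1' ∈ colsO K μ (.cross s) u1 ∧ v' = (l1 ++ u1'.1 ++ r1, u1'.2) := hv'
    rw [List.append_assoc] at e3
    obtain ⟨rfl, e5⟩ := List.append_inj e3 e1.symm
    obtain ⟨x, y, rfl⟩ := List.length_eq_two.1 e2
    have e6 : a = x ∧ b = y ∧ r = r1 := by simpa using e5
    obtain ⟨rfl, rfl, rfl⟩ := e6
    obtain rfl : u1' = (if s then [(b.1, K.op a.2 b.2), a] else [b, (a.1, K.op b.2 a.2)],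
      sg s a.1 b.1 • μ a.2 b.2) := e4
    exact ⟨H', hH', rfl⟩
  · rintro ⟨H', hH', rfl⟩
    refine ⟨(l ++ (if s then [(b.1, K.op a.2 b.2), a] else [b, (a.1, K.op b.2 a.2)]) ++ r,
      sg s a.1 b.1 • μ a.2 b.2), ⟨l, [a, b], r, (if s then [(b.1, K.op a.2 b.2), a] else
      [b, (a.1, K.op b.2 a.2)], sg s a.1 b.1 • μ a.2 b.2), rfl, rfl, by simp, rfl, rfl⟩, H', hH', rfl⟩

theorem mcap (l r : List (Bool × Q)) (a b : Bool × Q) (D : List Piece) (H : L × A) :
    H ∈ St K μ ((.cap, l.length) :: D) (l ++ a :: b :: r) ↔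
      (a.2 = b.2 ∧ b.1 = !a.1) ∧ ∃ H' ∈ St K μ D (l ++ r),
        H = (lsO K (l ++ a :: b :: r) ⊔ H'.1, 0 + H'.2) := by
  constructor
  · intro hH
    obtain ⟨v', hv', H', hH', rfl⟩ : ∃ v' ∈ actsO K μ (.cap, l.length) (l ++ a :: b :: r),
      ∃ H' ∈ St K μ D v'.1, H = (lsO K (l ++ a :: b :: r) ⊔ H'.1, v'.2 + H'.2) := hH
    obtain ⟨l1, u1, r1, u1', e1, e2, e3, e4, rfl⟩ : ∃ (l1 u1 r1 : List (Bool × Q)) (u1' : List (Bool × Q) × A),
      l1.length = l.length ∧ u1.length = 2 ∧ l ++ a :: b :: r = l1 ++ u1 ++ r1 ∧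
        u1' ∈ colsO K μ .cap u1 ∧ v' = (l1 ++ u1'.1 ++ r1, u1'.2) := hv'
    rw [List.append_assoc] at e3
    obtain ⟨rfl, e5⟩ := List.append_inj e3 e1.symm
    obtain ⟨x, y, rfl⟩ := List.length_eq_two.1 e2
    have e6 : a = x ∧ b = y ∧ r = r1 := by simpa using e5
    obtain ⟨rfl, rfl, rfl⟩ := e6
    obtain ⟨e7, e8, rfl⟩ : a.2 = b.2 ∧ b.1 = !a.1 ∧ u1' = ([], 0) := e4
    exact ⟨⟨e7, e8⟩, H', by simpa using hH', rfl⟩
  · rintro ⟨⟨e7, e8⟩, H', hH', rfl⟩
    exact ⟨(l ++ [] ++ r, 0), ⟨l, [a, b], r, ([], 0), rfl, rfl, by simp, ⟨e7, e8, rfl⟩, rfl⟩, H',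
      by simpa using hH', rfl⟩

theorem mcap1 (l r : List (Bool × Q)) (x a b : Bool × Q) (D : List Piece) (H : L × A) :
    H ∈ St K μ ((.cap, l.length + 1) :: D) (l ++ x :: a :: b :: r) ↔
      (a.2 = b.2 ∧ b.1 = !a.1) ∧ ∃ H' ∈ St K μ D (l ++ x :: r),
        H = (lsO K (l ++ x :: a :: b :: r) ⊔ H'.1, 0 + H'.2) := by
  have h := mcap K μ (l ++ [x]) r a b D H
  simpa only [List.append_assoc, List.cons_append, List.nil_append, List.length_append,
    List.length_cons, List.length_nil, Nat.zero_add] using h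

theorem mcross1 (s : Bool) (l r : List (Bool × Q)) (x a b : Bool × Q) (D : List Piece) (H : L × A) :
    H ∈ St K μ ((.cross s, l.length + 1) :: D) (l ++ x :: a :: b :: r) ↔
      ∃ H' ∈ St K μ D (l ++ x :: ((if s then [(b.1, K.op a.2 b.2), a] else [b, (a.1, K.op b.2 a.2)]) ++ r)),
        H = (lsO K (l ++ x :: a :: b :: r) ⊔ H'.1, sg s a.1 b.1 • μ a.2 b.2 + H'.2) := by
  have h := mcross K μ s (l ++ [x]) r a b D H
  simpa only [List.append_assoc, List.cons_append, List.nil_append, List.length_append,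
    List.length_cons, List.length_nil, Nat.zero_add] using h

end

theorem sg_slide (s x y z : Bool) (h : z = !x) : sg (!s) y z = sg s x y := by
  subst h
  revert s x y
  decide

theorem len {i : ℕ} {D : List Piece} {os : List Bool}
    (h : (runO ((.cross true, i) :: D) os).isSome ∨ (runO ((.cross false, i) :: D) os).isSome) :
    i + 2 ≤ os.length := by
  by_contra hcon
  rcases h with h | h
  · have h' : ((stepO (.cross true, i) os).bind (runO D)).isSome := h
    unfold stepO at h'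
    rw [if_neg (show ¬ ((Kind.cross true, i) : Piece).2 + ((Kind.cross true, i) : Piece).1.ar ≤ os.length
      from hcon)] at h'
    exact absurd h' (by simp)
  · have h' : ((stepO (.cross false, i) os).bind (runO D)).isSome := h
    unfold stepO at h'
    rw [if_neg (show ¬ ((Kind.cross false, i) : Piece).2 + ((Kind.cross false, i) : Piece).1.ar ≤ os.length
      from hcon)] at h'
    exact absurd h' (by simp)

end XSCA

open XSCA in
theorem p_SCA : S_SCA := by
  intro s i Q L A _ _ _ K μ hμ B os hX hY v hv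
  obtain ⟨hsym, -, hop⟩ := hμ
  have hlen : i + 3 ≤ v.length := by
    have h1 : (i + 1) + 2 ≤ os.length := by
      have hY' : (runO ((.cross (!s), i + 1) :: (.cap, i) :: B) os).isSome := hY
      cases s
      · exact len (Or.inl hY')
      · exact len (Or.inr hY')
    rw [← hv, List.length_map] at h1
    omega
  obtain ⟨l, x, y, z, r, rfl, rfl⟩ : ∃ l x y z r, v = l ++ x :: y :: z :: r ∧ l.length = i := by
    refine ⟨v.take i, v[i], v[i + 1], v[i + 2], v.drop (i + 3), ?_, ?_⟩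
    · rw [← List.drop_eq_getElem_cons, ← List.drop_eq_getElem_cons, ← List.drop_eq_getElem_cons,
        List.take_append_drop]
    · rw [List.length_take]
      omega
  have hsub : ∀ a b : Q, ∀ t : L, K.U a ≤ t → K.U b ≤ t → K.U (K.op a b) ≤ t :=
    fun a b t ha hb => (K.sub a b).trans (sup_le ha hb)
  have hle : K.U x.2 ≤ lsO K (l ++ x :: y :: z :: r) ∧ K.U y.2 ≤ lsO K (l ++ x :: y :: z :: r) ∧
      K.U z.2 ≤ lsO K (l ++ x :: y :: z :: r) ∧
      ls K (l.map Prod.snd) ≤ lsO K (l ++ x :: y :: z :: r) ∧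
      ls K (r.map Prod.snd) ≤ lsO K (l ++ x :: y :: z :: r) := by
    have h := le_refl (lsO K (l ++ x :: y :: z :: r))
    nth_rewrite 1 [lsO3] at h
    simp only [sup_le_iff] at h
    exact ⟨h.2.1, h.2.2.1, h.2.2.2.1, h.1, h.2.2.2.2⟩
  obtain ⟨hx, hy, hz, hl, hr⟩ := hle
  have hmid : ∀ a b c : Bool × Q, K.U a.2 ≤ lsO K (l ++ x :: y :: z :: r) →
      K.U b.2 ≤ lsO K (l ++ x :: y :: z :: r) → K.U c.2 ≤ lsO K (l ++ x :: y :: z :: r) →
      ∀ t : L, lsO K (l ++ x :: y :: z :: r) ⊔ (lsO K (l ++ a :: b :: c :: r) ⊔ t) =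
        lsO K (l ++ x :: y :: z :: r) ⊔ t := by
    intro a b c ha hb hc t
    have h1 : lsO K (l ++ a :: b :: c :: r) ≤ lsO K (l ++ x :: y :: z :: r) := by
      rw [lsO3 K l r a b c]
      exact sup_le hl (sup_le ha (sup_le hb (sup_le hc hr)))
    rw [← sup_assoc, sup_eq_left.2 h1]
  ext ⟨H, e⟩
  show (H, e) ∈ St K μ ((.cross s, l.length) :: (.cap, l.length + 1) :: B) (l ++ x :: y :: z :: r) ↔
    (H, e) ∈ St K μ ((.cross (!s), l.length + 1) :: (.cap, l.length) :: B) (l ++ x :: y :: z :: r)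
  rw [mcross, mcross1]
  cases s
  · simp only [Bool.false_eq_true, if_false, Bool.not_false, if_true, List.append_assoc,
      List.cons_append, List.nil_append]
    simp only [mcap1, mcap]
    constructor
    · rintro ⟨H1, ⟨⟨e1, e2⟩, H', hH', rfl⟩, h3⟩
      refine ⟨_, ⟨⟨?_, e2⟩, H', hH', rfl⟩, ?_⟩
      · show x.2 = K.op y.2 z.2
        rw [← e1]
        exact (K.invo _ _).symm
      · rw [h3]
        have e3 : sg true y.1 z.1 = sg false x.1 y.1 := sg_slide false x.1 y.1 z.1 e2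
        have e4 : μ y.2 z.2 = μ x.2 y.2 := by
          rw [← e1]
          show μ y.2 (K.op y.2 x.2) = μ x.2 y.2
          rw [hsym, hop]
        rw [e3, e4]
        simp only
        rw [hmid y (x.1, K.op y.2 x.2) z hy (hsub _ _ _ hy hx) hz,
          hmid x (z.1, K.op y.2 z.2) y hx (hsub _ _ _ hy hz) hy]
    · rintro ⟨H1, ⟨⟨e1, e2⟩, H', hH', rfl⟩, h3⟩
      have e1' : x.2 = K.op y.2 z.2 := e1
      refine ⟨_, ⟨⟨?_, e2⟩, H', hH', rfl⟩, ?_⟩
      · show K.op y.2 x.2 = z.2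
        rw [e1']
        exact K.invo _ _
      · rw [h3]
        have e3 : sg true y.1 z.1 = sg false x.1 y.1 := sg_slide false x.1 y.1 z.1 e2
        have e4 : μ y.2 z.2 = μ x.2 y.2 := by
          rw [e1', hop, hsym]
        rw [e3, e4]
        simp only
        rw [hmid y (x.1, K.op y.2 x.2) z hy (hsub _ _ _ hy hx) hz,
          hmid x (z.1, K.op y.2 z.2) y hx (hsub _ _ _ hy hz) hy]
  · simp only [Bool.false_eq_true, if_false, Bool.not_true, if_true, List.append_assoc,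
      List.cons_append, List.nil_append]
    simp only [mcap1, mcap]
    constructor
    · rintro ⟨H1, ⟨⟨e1, e2⟩, H', hH', rfl⟩, h3⟩
      rw [e1] at hH'
      refine ⟨_, ⟨⟨e1, e2⟩, H', hH', rfl⟩, ?_⟩
      rw [h3]
      have e3 : sg false y.1 z.1 = sg true x.1 y.1 := sg_slide true x.1 y.1 z.1 e2
      have e4 : μ y.2 z.2 = μ x.2 y.2 := by
        rw [← e1, hsym]
      rw [e3, e4]
      simp only
      rw [hmid (y.1, K.op x.2 y.2) x z (hsub _ _ _ hx hy) hx hz,
        hmid x z (y.1, K.op z.2 y.2) hx hz (hsub _ _ _ hz hy)]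
    · rintro ⟨H1, ⟨⟨e1, e2⟩, H', hH', rfl⟩, h3⟩
      rw [← e1] at hH'
      refine ⟨_, ⟨⟨e1, e2⟩, H', hH', rfl⟩, ?_⟩
      rw [h3]
      have e3 : sg false y.1 z.1 = sg true x.1 y.1 := sg_slide true x.1 y.1 z.1 e2
      have e4 : μ y.2 z.2 = μ x.2 y.2 := by
        rw [← e1, hsym]
      rw [e3, e4]
      simp only
      rw [hmid (y.1, K.op x.2 y.2) x z (hsub _ _ _ hx hy) hx hz,
        hmid x z (y.1, K.op z.2 y.2) hx hz (hsub _ _ _ hz hy)]

end Pool.BraidIndex.Cf
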