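import Pool.Agent.Work.MP_9d4fac_cf.Interface
import Pool.Agent.Work.MP_9d4fac_gt.S_localB

set_option autoImplicit false

namespace Pool.BraidIndex.Cf

open Pool.BraidIndex Pool.BraidIndex.Cox

namespace XSCU

section
variable {Q L A : Type} [SemilatticeSup L] [OrderBot L] [AddCommGroup A] (K : Kei Q L) (μ : Q → Q → A)

theorem ls_nil : lsO K [] = ⊥ := rfl

theorem ls_cons (a : Bool × Q) (v : List (Bool × Q)) : lsO K (a :: v) = K.U a.2 ⊔ lsO K v := rfl

theorem ls_append (v w : List (Bool × Q)) : lsO K (v ++ w) = lsO K v ⊔ lsO K w := by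
  induction v with
  | nil => rw [List.nil_append, ls_nil, bot_sup_eq]
  | cons a v ih => rw [List.cons_append, ls_cons, ls_cons, ih, sup_assoc]

theorem low {B : List Piece} {w : List (Bool × Q)} {H : L × A} (h : H ∈ St K μ B w) : lsO K w ≤ H.1 := by
  rcases B with _ | ⟨q, D⟩
  · obtain ⟨rfl, rfl⟩ : w = [] ∧ H = (⊥, 0) := h
    exact le_of_eq (ls_nil K)
  · obtain ⟨v', _, H', _, rfl⟩ : ∃ v' ∈ actsO K μ q w, ∃ H' ∈ St K μ D v'.1,
      H = (lsO K w ⊔ H'.1, v'.2 + H'.2) := h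
    exact le_sup_left

theorem split (k : Kind) (l u r : List (Bool × Q)) (D : List Piece) (H : L × A) (h : u.length = k.ar) :
    H ∈ St K μ ((k, l.length) :: D) (l ++ u ++ r) ↔
      ∃ u' ∈ colsO K μ k u, ∃ H' ∈ St K μ D (l ++ u'.1 ++ r),
        H = (lsO K (l ++ u ++ r) ⊔ H'.1, u'.2 + H'.2) := by
  constructor
  · intro hH
    obtain ⟨v', hv', H', hH', rfl⟩ : ∃ v' ∈ actsO K μ (k, l.length) (l ++ u ++ r),
      ∃ H' ∈ St K μ D v'.1, H = (lsO K (l ++ u ++ r) ⊔ H'.1, v'.2 + H'.2) := hH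
    obtain ⟨l1, u1, r1, u1', e1, e2, e3, e4, rfl⟩ : ∃ (l1 u1 r1 : List (Bool × Q))
      (u1' : List (Bool × Q) × A), l1.length = l.length ∧
      u1.length = k.ar ∧ l ++ u ++ r = l1 ++ u1 ++ r1 ∧ u1' ∈ colsO K μ k u1 ∧
      v' = (l1 ++ u1'.1 ++ r1, u1'.2) := hv'
    rw [List.append_assoc, List.append_assoc] at e3
    obtain ⟨rfl, e5⟩ := List.append_inj e3 e1.symm
    obtain ⟨rfl, rfl⟩ := List.append_inj e5 (h.trans e2.symm)
    exact ⟨u1', e4, H', hH', rfl⟩
  · rintro ⟨u', hu', H', hH', rfl⟩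
    exact ⟨(l ++ u'.1 ++ r, u'.2), ⟨l, u, r, u', rfl, h, rfl, hu', rfl⟩, H', hH', rfl⟩

theorem mcup (o : Bool) (l r : List (Bool × Q)) (D : List Piece) (H : L × A) :
    H ∈ St K μ ((.cup o, l.length) :: D) (l ++ r) ↔
      ∃ c, ∃ H' ∈ St K μ D (l ++ (o, c) :: (!o, c) :: r), H = (lsO K (l ++ r) ⊔ H'.1, 0 + H'.2) := by
  have h := split K μ (.cup o) l [] r D H rfl
  rw [List.append_nil] at h
  rw [h]
  constructor
  · rintro ⟨u', ⟨c, rfl⟩, H', hH', rfl⟩
    exact ⟨c, H', by simpa using hH', rfl⟩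
  · rintro ⟨c, H', hH', rfl⟩
    exact ⟨([(o, c), (!o, c)], 0), ⟨c, rfl⟩, H', by simpa using hH', rfl⟩

theorem mtrue (l r : List (Bool × Q)) (a b : Bool × Q) (D : List Piece) (H : L × A) :
    H ∈ St K μ ((.cross true, l.length) :: D) (l ++ a :: b :: r) ↔
      ∃ H' ∈ St K μ D (l ++ (b.1, K.op a.2 b.2) :: a :: r),
        H = (lsO K (l ++ a :: b :: r) ⊔ H'.1, sg true a.1 b.1 • μ a.2 b.2 + H'.2) := by
  have h := split K μ (.cross true) l [a, b] r D H rfl
  have e : l ++ [a, b] ++ r = l ++ a :: b :: r := by simp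
  rw [e] at h
  rw [h]
  constructor
  · rintro ⟨u', hu', H', hH', rfl⟩
    obtain rfl : u' = ([(b.1, K.op a.2 b.2), a], sg true a.1 b.1 • μ a.2 b.2) := hu'
    exact ⟨H', by simpa using hH', rfl⟩
  · rintro ⟨H', hH', rfl⟩
    exact ⟨([(b.1, K.op a.2 b.2), a], sg true a.1 b.1 • μ a.2 b.2), rfl, H', by simpa using hH', rfl⟩

theorem mfalse (l r : List (Bool × Q)) (a b : Bool × Q) (D : List Piece) (H : L × A) :
    H ∈ St K μ ((.cross false, l.length) :: D) (l ++ a :: b :: r) ↔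
      ∃ H' ∈ St K μ D (l ++ b :: (a.1, K.op b.2 a.2) :: r),
        H = (lsO K (l ++ a :: b :: r) ⊔ H'.1, sg false a.1 b.1 • μ a.2 b.2 + H'.2) := by
  have h := split K μ (.cross false) l [a, b] r D H rfl
  have e : l ++ [a, b] ++ r = l ++ a :: b :: r := by simp
  rw [e] at h
  rw [h]
  constructor
  · rintro ⟨u', hu', H', hH', rfl⟩
    obtain rfl : u' = ([b, (a.1, K.op b.2 a.2)], sg false a.1 b.1 • μ a.2 b.2) := hu'
    exact ⟨H', by simpa using hH', rfl⟩
  · rintro ⟨H', hH', rfl⟩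
    exact ⟨([b, (a.1, K.op b.2 a.2)], sg false a.1 b.1 • μ a.2 b.2), rfl, H', by simpa using hH', rfl⟩

theorem mcup1 (o : Bool) (l r : List (Bool × Q)) (x : Bool × Q) (D : List Piece) (H : L × A) :
    H ∈ St K μ ((.cup o, l.length + 1) :: D) (l ++ x :: r) ↔
      ∃ c, ∃ H' ∈ St K μ D (l ++ x :: (o, c) :: (!o, c) :: r),
        H = (lsO K (l ++ x :: r) ⊔ H'.1, 0 + H'.2) := by
  have h := mcup K μ o (l ++ [x]) r D H
  simpa only [List.append_assoc, List.cons_append, List.nil_append, List.length_append,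
    List.length_cons, List.length_nil, Nat.zero_add] using h

theorem mtrue1 (l r : List (Bool × Q)) (x a b : Bool × Q) (D : List Piece) (H : L × A) :
    H ∈ St K μ ((.cross true, l.length + 1) :: D) (l ++ x :: a :: b :: r) ↔
      ∃ H' ∈ St K μ D (l ++ x :: (b.1, K.op a.2 b.2) :: a :: r),
        H = (lsO K (l ++ x :: a :: b :: r) ⊔ H'.1, sg true a.1 b.1 • μ a.2 b.2 + H'.2) := by
  have h := mtrue K μ (l ++ [x]) r a b D H
  simpa only [List.append_assoc, List.cons_append, List.nil_append, List.length_append,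
    List.length_cons, List.length_nil, Nat.zero_add] using h

theorem mfalse1 (l r : List (Bool × Q)) (x a b : Bool × Q) (D : List Piece) (H : L × A) :
    H ∈ St K μ ((.cross false, l.length + 1) :: D) (l ++ x :: a :: b :: r) ↔
      ∃ H' ∈ St K μ D (l ++ x :: b :: (a.1, K.op b.2 a.2) :: r),
        H = (lsO K (l ++ x :: a :: b :: r) ⊔ H'.1, sg false a.1 b.1 • μ a.2 b.2 + H'.2) := by
  have h := mfalse K μ (l ++ [x]) r a b D H
  simpa only [List.append_assoc, List.cons_append, List.nil_append, List.length_append,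
    List.length_cons, List.length_nil, Nat.zero_add] using h

theorem ab2 {v x h : L} (hx : x ≤ v ⊔ h) : v ⊔ (x ⊔ h) = v ⊔ h :=
  le_antisymm (sup_le le_sup_left (sup_le hx le_sup_right)) (sup_le le_sup_left (le_sup_right.trans le_sup_right))

theorem sg1 (s o z : Bool) : sg s (!o) z = sg (!s) z o := by
  cases s <;> cases o <;> cases z <;> simp [sg]

end

end XSCU

open XSCU in
theorem p_SCU : S_SCU := by
  intro o s i Q L A _ _ _ K μ hW B os hX hY v hv
  obtain ⟨hsym, -, hpass⟩ := hW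
  have hlv : v.length = os.length := by rw [← hv, List.length_map]
  ext H
  obtain ⟨f1, w1, s1, g1⟩ := LB.fits hX
  obtain ⟨f2, w2, s2, g2⟩ := LB.fits g1
  have e1 := LB.step_len s1
  simp only [Kind.ar, Kind.oar] at f1 f2 e1
  obtain ⟨l, a, r, rfl, rfl⟩ := LB.dec1 v i (by omega)
  show H ∈ St K μ ((.cup o, l.length) :: (.cross s, l.length + 1) :: B) (l ++ a :: r) ↔
    H ∈ St K μ ((.cup o, l.length + 1) :: (.cross (!s), l.length) :: B) (l ++ a :: r)
  rw [mcup, mcup1]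
  have hw : ∀ (s : Bool) (c : Q), sg s (!o) a.1 • μ c a.2 = sg (!s) a.1 o • μ a.2 c := by
    intro s c
    rw [sg1, hsym]
  have hw2 : ∀ (s : Bool) (c : Q), sg s (!o) a.1 • μ c a.2 = sg (!s) a.1 o • μ a.2 (K.op a.2 c) := by
    intro s c
    rw [sg1, hsym a.2 (K.op a.2 c), hpass]
  cases s
  · show _ ↔ ∃ c, ∃ H' ∈ St K μ ((.cross true, l.length) :: B) (l ++ a :: (o, c) :: (!o, c) :: r),
      H = (lsO K (l ++ a :: r) ⊔ H'.1, 0 + H'.2)
    simp only [mfalse1, mtrue]
    constructor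
    · rintro ⟨c, H1, ⟨H', hH', rfl⟩, rfl⟩
      have h := low K μ hH'
      have h1 : lsO K (l ++ (o, c) :: (!o, c) :: a :: r) ≤ lsO K (l ++ a :: r) ⊔ H'.1 := by
        refine le_trans ?_ le_sup_right
        simp only [ls_append, ls_cons, sup_le_iff] at h ⊢
        tauto
      have h2 : lsO K (l ++ a :: (o, K.op a.2 c) :: (!o, K.op a.2 c) :: r) ≤
          lsO K (l ++ a :: r) ⊔ H'.1 := by
        refine le_trans ?_ le_sup_right
        simp only [ls_append, ls_cons, sup_le_iff] at h ⊢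
        tauto
      refine ⟨K.op a.2 c, _, ⟨H', ?_, rfl⟩, ?_⟩
      · rw [K.invo]
        exact hH'
      · refine Prod.ext ?_ ?_
        · exact (ab2 h1).trans (ab2 h2).symm
        · show 0 + (sg false (!o) a.1 • μ c a.2 + H'.2) = 0 + (sg true a.1 o • μ a.2 (K.op a.2 c) + H'.2)
          rw [hw2 false c]
          rfl
    · rintro ⟨c, H1, ⟨H', hH', rfl⟩, rfl⟩
      have h := low K μ hH'
      have h1 : lsO K (l ++ (o, K.op a.2 c) :: (!o, K.op a.2 c) :: a :: r) ≤
          lsO K (l ++ a :: r) ⊔ H'.1 := by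
        refine le_trans ?_ le_sup_right
        simp only [ls_append, ls_cons, sup_le_iff] at h ⊢
        tauto
      have h2 : lsO K (l ++ a :: (o, c) :: (!o, c) :: r) ≤ lsO K (l ++ a :: r) ⊔ H'.1 := by
        refine le_trans ?_ le_sup_right
        simp only [ls_append, ls_cons, sup_le_iff] at h ⊢
        tauto
      refine ⟨K.op a.2 c, _, ⟨H', ?_, rfl⟩, ?_⟩
      · rw [K.invo]
        exact hH'
      · refine Prod.ext ?_ ?_
        · exact (ab2 h2).trans (ab2 h1).symm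
        · show 0 + (sg true a.1 o • μ a.2 c + H'.2) =
            0 + (sg false (!o) a.1 • μ (K.op a.2 c) a.2 + H'.2)
          rw [hw2 false (K.op a.2 c), K.invo]
          rfl
  · show _ ↔ ∃ c, ∃ H' ∈ St K μ ((.cross false, l.length) :: B) (l ++ a :: (o, c) :: (!o, c) :: r),
      H = (lsO K (l ++ a :: r) ⊔ H'.1, 0 + H'.2)
    simp only [mtrue1, mfalse]
    have key : ∀ (c : Q) (H' : L × A), H' ∈ St K μ B (l ++ (o, c) :: (a.1, K.op c a.2) :: (!o, c) :: r) →
        lsO K (l ++ a :: r) ⊔ (lsO K (l ++ (o, c) :: (!o, c) :: a :: r) ⊔ H'.1) =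
        lsO K (l ++ a :: r) ⊔ (lsO K (l ++ a :: (o, c) :: (!o, c) :: r) ⊔ H'.1) := by
      intro c H' hH'
      have h := low K μ hH'
      have h1 : lsO K (l ++ (o, c) :: (!o, c) :: a :: r) ≤ lsO K (l ++ a :: r) ⊔ H'.1 := by
        simp only [ls_append, ls_cons, sup_le_iff] at h ⊢
        exact ⟨le_sup_left.trans le_sup_left, h.2.1.trans le_sup_right, h.2.1.trans le_sup_right,
          (le_sup_left.trans le_sup_right).trans le_sup_left,
          (le_sup_right.trans le_sup_right).trans le_sup_left⟩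
      have h2 : lsO K (l ++ a :: (o, c) :: (!o, c) :: r) ≤ lsO K (l ++ a :: r) ⊔ H'.1 := by
        simp only [ls_append, ls_cons, sup_le_iff] at h ⊢
        exact ⟨le_sup_left.trans le_sup_left,
          (le_sup_left.trans le_sup_right).trans le_sup_left, h.2.1.trans le_sup_right,
          h.2.1.trans le_sup_right, (le_sup_right.trans le_sup_right).trans le_sup_left⟩
      rw [ab2 h1, ab2 h2]
    constructor
    · rintro ⟨c, H1, ⟨H', hH', rfl⟩, rfl⟩
      refine ⟨c, _, ⟨H', hH', rfl⟩, Prod.ext ?_ ?_⟩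
      · exact key c H' hH'
      · show 0 + (sg true (!o) a.1 • μ c a.2 + H'.2) = 0 + (sg false a.1 o • μ a.2 c + H'.2)
        rw [hw true c]
        rfl
    · rintro ⟨c, H1, ⟨H', hH', rfl⟩, rfl⟩
      refine ⟨c, _, ⟨H', hH', rfl⟩, Prod.ext ?_ ?_⟩
      · exact (key c H' hH').symm
      · show 0 + (sg false a.1 o • μ a.2 c + H'.2) = 0 + (sg true (!o) a.1 • μ c a.2 + H'.2)
        rw [hw true c]
        rfl

end Pool.BraidIndex.Cf
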