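import Pool.Agent.Work.MP_9d4fac_cf.Interface

set_option autoImplicit false

/-! # Block SPN (helper33) -/

namespace Pool.BraidIndex.Cf

open Pool.BraidIndex Pool.BraidIndex.Cox

namespace XSPN

theorem rep (N : ℕ) (x y z : ZMod N)
    (h : (z, (1 : ZMod N)) ∈ Submodule.span (ZMod N) {(x, (1 : ZMod N))} ⊔ Submodule.span (ZMod N) {(y, (1 : ZMod N))}) :
    ∃ a : ZMod N, z = x + a * (y - x) := by
  rw [Submodule.mem_sup] at h
  obtain ⟨u, hu, t, ht, e⟩ := h
  rw [Submodule.mem_span_singleton] at hu ht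
  obtain ⟨a, rfl⟩ := hu
  obtain ⟨b, rfl⟩ := ht
  have e1 : a * x + b * y = z := congrArg Prod.fst e
  have e2 : a * 1 + b * 1 = 1 := congrArg Prod.snd e
  refine ⟨b, ?_⟩
  have e3 : a = 1 - b := by rw [mul_one, mul_one] at e2; exact eq_sub_of_add_eq e2
  rw [← e1, e3]
  ring

end XSPN

theorem p_SPN : S_SPN := by
  intro N x y z z' h h'
  obtain ⟨a, ha⟩ := XSPN.rep N x y z h
  obtain ⟨a', ha'⟩ := XSPN.rep N x y z' h'
  exact ⟨a' - a, by rw [ha, ha']; ring⟩

end Pool.BraidIndex.Cf
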