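import Pool.Agent.Work.MP_9d4fac_cf.Interface

/-!
# TWO: the two strands of a block with one strand of each label
-/

set_option autoImplicit false

namespace Pool.BraidIndex.Cf

open Pool.BraidIndex Pool.BraidIndex.Cox

namespace XTWO

variable {κ π : Type} [DecidableEq κ] [DecidableEq π] {N : ℕ} {pr : κ → π}

omit [DecidableEq κ] in
theorem op_ne {a b : κ × ZMod N} (h : pr a.1 ≠ pr b.1) : opC N pr a b = b := by
  unfold opC
  rw [if_neg h]

omit [DecidableEq κ] in
theorem op_eq {a b : κ × ZMod N} (h : pr a.1 = pr b.1) :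
    opC N pr a b = (b.1, 2 * a.2 - b.2) := by
  unfold opC
  rw [if_pos h]

theorem f2 {α : Type} (P : α → Bool) (u v : α) :
    [u, v].filter P = (if P u then [u] else []) ++ (if P v then [v] else []) := by
  cases hu : P u <;> cases hv : P v <;> simp [hu, hv]

theorem step (A B : κ) (hAB : A ≠ B) (hpr : pr A = pr B)
    (hcl : ∀ l, pr l = pr A → l = A ∨ l = B) (l r : List (κ × ZMod N)) (a b x y : κ × ZMod N)
    (s : Bool) (hF : (l ++ [a, b] ++ r).filter (fun c => decide (c.1 = A ∨ c.1 = B)) = [x, y])
    (hxy : x.1 ≠ y.1) : ∃ x1 y1 : κ × ZMod N,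
      (l ++ (if s then [opC N pr a b, a] else [b, opC N pr b a]) ++ r).filter
        (fun c => decide (c.1 = A ∨ c.1 = B)) = [x1, y1] ∧ x1.1 ≠ y1.1 ∧
      x1.2 = x.2 + (((if s then (1 : ℤ) else -1) * muC N a b A B : ℤ) : ZMod N) * (x.2 - y.2) ∧
      y1.2 = y.2 + (((if s then (1 : ℤ) else -1) * muC N a b A B : ℤ) : ZMod N) * (x.2 - y.2) := by
  have hin : ∀ c : κ × ZMod N, (c.1 = A ∨ c.1 = B) → pr c.1 = pr A := by
    rintro c (h | h)
    · rw [h]
    · rw [h, hpr]
  have hnin : ∀ c : κ × ZMod N, ¬ (c.1 = A ∨ c.1 = B) → pr c.1 ≠ pr A := fun c h h' => h (hcl _ h')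
  by_cases hab : (a.1 = A ∨ a.1 = B) ∧ (b.1 = A ∨ b.1 = B)
  · obtain ⟨ha, hb⟩ := hab
    have hab2 : [a, b].filter (fun c : κ × ZMod N => decide (c.1 = A ∨ c.1 = B)) = [a, b] := by
      rw [f2, if_pos (decide_eq_true ha), if_pos (decide_eq_true hb)]
      rfl
    rw [List.filter_append, List.filter_append, hab2] at hF
    have hlen := congrArg List.length hF
    simp only [List.length_append, List.length_cons, List.length_nil] at hlen
    have hl : l.filter (fun c => decide (c.1 = A ∨ c.1 = B)) = [] :=
      List.length_eq_zero_iff.1 (by omega)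
    have hr : r.filter (fun c => decide (c.1 = A ∨ c.1 = B)) = [] :=
      List.length_eq_zero_iff.1 (by omega)
    rw [hl, hr, List.nil_append, List.append_nil] at hF
    obtain ⟨rfl, rfl⟩ : a = x ∧ b = y := by simpa using hF
    have hprab : pr a.1 = pr b.1 := (hin a ha).trans (hin b hb).symm
    have hmu : muC N a b A B = 1 := by
      unfold muC
      rw [if_pos]
      refine ⟨hAB, ?_⟩
      rcases ha with ha | ha <;> rcases hb with hb | hb
      · exact absurd (ha.trans hb.symm) hxy
      · exact Or.inl ⟨ha, hb⟩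
      · exact Or.inr ⟨ha, hb⟩
      · exact absurd (ha.trans hb.symm) hxy
    rw [hmu, List.filter_append, List.filter_append, hl, hr, List.nil_append, List.append_nil]
    cases s
    · refine ⟨b, opC N pr b a, ?_, ?_, ?_, ?_⟩
      · have h1 : (opC N pr b a).1 = A ∨ (opC N pr b a).1 = B := ha
        simp only [Bool.false_eq_true, if_false]
        rw [f2, if_pos (decide_eq_true hb), if_pos (decide_eq_true h1)]
        rfl
      · exact fun h => hxy h.symm
      · simp only [Bool.false_eq_true, if_false]
        push_cast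
        ring
      · rw [op_eq hprab.symm]
        simp only [Bool.false_eq_true, if_false]
        push_cast
        ring
    · refine ⟨opC N pr a b, a, ?_, ?_, ?_, ?_⟩
      · have h1 : (opC N pr a b).1 = A ∨ (opC N pr a b).1 = B := hb
        simp only [if_true]
        rw [f2, if_pos (decide_eq_true ha), if_pos (decide_eq_true h1)]
        rfl
      · exact fun h => hxy h.symm
      · rw [op_eq hprab]
        simp only [if_true]
        push_cast
        ring
      · simp only [if_true]
        push_cast
        ring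
  · have hmu : muC N a b A B = 0 := by
      unfold muC
      rw [if_neg]
      rintro ⟨_, ⟨h1, h2⟩ | ⟨h1, h2⟩⟩
      · exact hab ⟨Or.inl h1, Or.inr h2⟩
      · exact hab ⟨Or.inr h1, Or.inl h2⟩
    have hsame : (if s then [opC N pr a b, a] else [b, opC N pr b a]).filter
        (fun c => decide (c.1 = A ∨ c.1 = B)) =
        [a, b].filter (fun c => decide (c.1 = A ∨ c.1 = B)) := by
      by_cases ha : a.1 = A ∨ a.1 = B
      · have hb : ¬ (b.1 = A ∨ b.1 = B) := fun hb => hab ⟨ha, hb⟩
        have hne : pr a.1 ≠ pr b.1 := fun h => hnin b hb (h.symm.trans (hin a ha))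
        have Pa : decide (a.1 = A ∨ a.1 = B) = true := decide_eq_true ha
        have Pb : decide (b.1 = A ∨ b.1 = B) = false := decide_eq_false hb
        rw [op_ne hne, op_ne (Ne.symm hne), ite_self, f2, f2, Pa, Pb]
        rfl
      · have Pa : decide (a.1 = A ∨ a.1 = B) = false := decide_eq_false ha
        by_cases hb : b.1 = A ∨ b.1 = B
        · have hne : pr a.1 ≠ pr b.1 := fun h => hnin a ha (h.trans (hin b hb))
          have Pb : decide (b.1 = A ∨ b.1 = B) = true := decide_eq_true hb
          rw [op_ne hne, op_ne (Ne.symm hne), ite_self, f2, f2, Pa, Pb]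
          rfl
        · have Pb : decide (b.1 = A ∨ b.1 = B) = false := decide_eq_false hb
          have n1 : decide ((opC N pr a b).1 = A ∨ (opC N pr a b).1 = B) = false := Pb
          have n2 : decide ((opC N pr b a).1 = A ∨ (opC N pr b a).1 = B) = false := Pa
          cases s
          · rw [if_neg Bool.false_ne_true, f2, f2, n2, Pa, Pb]
            rfl
          · rw [if_pos rfl, f2, f2, n1, Pa, Pb]
            rfl
    refine ⟨x, y, ?_, hxy, ?_, ?_⟩
    · rw [List.filter_append, List.filter_append, hsame, ← List.filter_append,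
        ← List.filter_append]
      exact hF
    · rw [hmu]
      simp
    · rw [hmu]
      simp

end XTWO

theorem p_TWO : S_TWO := by
  intro κ π _ _ N pr K hK w v v' e hBW A B hAB hpr hcl
  induction hBW with
  | nil v =>
    intro x y hF hxy
    exact ⟨x, y, hF, hxy, by simp, by simp⟩
  | cons l r a b s w v' e _ ih =>
    intro x y hF hxy
    obtain ⟨x1, y1, h1, h2, h3, h4⟩ := XTWO.step A B hAB hpr hcl l r a b x y s hF hxy
    rw [hK] at ih
    obtain ⟨x', y', g1, g2, g3, g4⟩ := ih x1 y1 h1 h2
    have hE : ((if s then (1 : ℤ) else -1) • muC N a b + e) A B =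
        (if s then (1 : ℤ) else -1) * muC N a b A B + e A B := by
      simp only [Pi.add_apply, Pi.smul_apply, smul_eq_mul]
    refine ⟨x', y', g1, g2, ?_, ?_⟩
    · rw [g3, h3, h4, hE, Int.cast_add]
      ring
    · rw [g4, h3, h4, hE, Int.cast_add]
      ring

end Pool.BraidIndex.Cf
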