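import Pool.Agent.Work.MP_9d4fac_cf.Interface
import Pool.Agent.Work.MP_9d4fac_gt.S_localB

set_option autoImplicit false

namespace Pool.BraidIndex.Cf

open Pool.BraidIndex Pool.BraidIndex.Cox

namespace XZIG

section
variable {Q L A : Type} [SemilatticeSup L] [OrderBot L] [AddCommGroup A] (K : Kei Q L) (μ : Q → Q → A)

theorem ls_nil : lsO K [] = ⊥ := rfl

theorem ls_cons (a : Bool × Q) (v : List (Bool × Q)) : lsO K (a :: v) = K.U a.2 ⊔ lsO K v := rfl

theorem ls_append (v w : List (Bool × Q)) : lsO K (v ++ w) = lsO K v ⊔ lsO K w := by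
  induction v with
  | nil => rw [List.nil_append, ls_nil, bot_sup_eq]
  | cons a v ih => rw [List.cons_append, ls_cons, ls_cons, ih, sup_assoc]

theorem low {B : List Piece} {w : List (Bool × Q)} {H : L × A} (h : H ∈ St K μ B w) : lsO K w ≤ H.1 := by
  rcases B with _ | ⟨q, D⟩
  · obtain ⟨rfl, rfl⟩ : w = [] ∧ H = (⊥, 0) := h
    exact le_of_eq (ls_nil K)
  · obtain ⟨v', _, H', _, rfl⟩ : ∃ v' ∈ actsO K μ q w, ∃ H' ∈ St K μ D v'.1,
      H = (lsO K w ⊔ H'.1, v'.2 + H'.2) := h
    exact le_sup_left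

theorem split (k : Kind) (l u r : List (Bool × Q)) (D : List Piece) (H : L × A) (h : u.length = k.ar) :
    H ∈ St K μ ((k, l.length) :: D) (l ++ u ++ r) ↔
      ∃ u' ∈ colsO K μ k u, ∃ H' ∈ St K μ D (l ++ u'.1 ++ r),
        H = (lsO K (l ++ u ++ r) ⊔ H'.1, u'.2 + H'.2) := by
  constructor
  · intro hH
    obtain ⟨v', hv', H', hH', rfl⟩ : ∃ v' ∈ actsO K μ (k, l.length) (l ++ u ++ r),
      ∃ H' ∈ St K μ D v'.1, H = (lsO K (l ++ u ++ r) ⊔ H'.1, v'.2 + H'.2) := hH
    obtain ⟨l1, u1, r1, u1', e1, e2, e3, e4, rfl⟩ : ∃ (l1 u1 r1 : List (Bool × Q))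
      (u1' : List (Bool × Q) × A), l1.length = l.length ∧
      u1.length = k.ar ∧ l ++ u ++ r = l1 ++ u1 ++ r1 ∧ u1' ∈ colsO K μ k u1 ∧
      v' = (l1 ++ u1'.1 ++ r1, u1'.2) := hv'
    rw [List.append_assoc, List.append_assoc] at e3
    obtain ⟨rfl, e5⟩ := List.append_inj e3 e1.symm
    obtain ⟨rfl, rfl⟩ := List.append_inj e5 (h.trans e2.symm)
    exact ⟨u1', e4, H', hH', rfl⟩
  · rintro ⟨u', hu', H', hH', rfl⟩
    exact ⟨(l ++ u'.1 ++ r, u'.2), ⟨l, u, r, u', rfl, h, rfl, hu', rfl⟩, H', hH', rfl⟩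

theorem mcup (o : Bool) (l r : List (Bool × Q)) (D : List Piece) (H : L × A) :
    H ∈ St K μ ((.cup o, l.length) :: D) (l ++ r) ↔
      ∃ c, ∃ H' ∈ St K μ D (l ++ (o, c) :: (!o, c) :: r), H = (lsO K (l ++ r) ⊔ H'.1, H'.2) := by
  have h := split K μ (.cup o) l [] r D H rfl
  rw [List.append_nil] at h
  rw [h]
  constructor
  · rintro ⟨u', ⟨c, rfl⟩, H', hH', rfl⟩
    exact ⟨c, H', by simpa using hH', by simp⟩
  · rintro ⟨c, H', hH', rfl⟩
    exact ⟨([(o, c), (!o, c)], 0), ⟨c, rfl⟩, H', by simpa using hH', by simp⟩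

theorem mcap (l r : List (Bool × Q)) (a b : Bool × Q) (D : List Piece) (H : L × A) :
    H ∈ St K μ ((.cap, l.length) :: D) (l ++ a :: b :: r) ↔
      (a.2 = b.2 ∧ b.1 = !a.1) ∧ ∃ H' ∈ St K μ D (l ++ r), H = (lsO K (l ++ a :: b :: r) ⊔ H'.1, H'.2) := by
  have h := split K μ .cap l [a, b] r D H rfl
  have e : l ++ [a, b] ++ r = l ++ a :: b :: r := by simp
  rw [e] at h
  rw [h]
  constructor
  · rintro ⟨u', ⟨hab, ho, rfl⟩, H', hH', rfl⟩
    exact ⟨⟨hab, ho⟩, H', by simpa using hH', by simp⟩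
  · rintro ⟨⟨hab, ho⟩, H', hH', rfl⟩
    exact ⟨([], 0), ⟨hab, ho, rfl⟩, H', by simpa using hH', by simp⟩

theorem mcup1 (o : Bool) (l r : List (Bool × Q)) (x : Bool × Q) (D : List Piece) (H : L × A) :
    H ∈ St K μ ((.cup o, l.length + 1) :: D) (l ++ x :: r) ↔
      ∃ c, ∃ H' ∈ St K μ D (l ++ x :: (o, c) :: (!o, c) :: r), H = (lsO K (l ++ x :: r) ⊔ H'.1, H'.2) := by
  have h := mcup K μ o (l ++ [x]) r D H
  simpa only [List.append_assoc, List.cons_append, List.nil_append, List.length_append,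
    List.length_cons, List.length_nil, Nat.zero_add] using h

theorem mcap1 (l r : List (Bool × Q)) (x a b : Bool × Q) (D : List Piece) (H : L × A) :
    H ∈ St K μ ((.cap, l.length + 1) :: D) (l ++ x :: a :: b :: r) ↔
      (a.2 = b.2 ∧ b.1 = !a.1) ∧ ∃ H' ∈ St K μ D (l ++ x :: r),
        H = (lsO K (l ++ x :: a :: b :: r) ⊔ H'.1, H'.2) := by
  have h := mcap K μ (l ++ [x]) r a b D H
  simpa only [List.append_assoc, List.cons_append, List.nil_append, List.length_append,
    List.length_cons, List.length_nil, Nat.zero_add] using h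

end

theorem oriL {l r : List Bool} {a o : Bool} {B : List Piece}
    (h : (runO ((.cup o, l.length + 1) :: (.cap, l.length) :: B) (l ++ a :: r)).isSome) : o = !a := by
  obtain ⟨_, w, s, g⟩ := LB.fits h
  have e1 := LB.osplit (.cup o) (l ++ [a]) [] r rfl
  have e2 : (l ++ [a]).length = l.length + 1 := by simp
  have e3 : l ++ [a] ++ [] ++ r = l ++ a :: r := by simp
  rw [e2, e3, s] at e1
  have e4 : w = l ++ [a, o] ++ ((!o) :: r) := by
    have : (some w : Option (List Bool)) = some (l ++ [a] ++ [o, !o] ++ r) := e1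
    rw [Option.some.injEq] at this
    rw [this]
    simp
  obtain ⟨_, w', s', _⟩ := LB.fits g
  rw [e4, LB.osplit .cap l [a, o] _ rfl] at s'
  by_contra hne
  have : Kind.ori .cap [a, o] = none := by
    simp [Kind.ori, hne]
  rw [this] at s'
  simp at s'

theorem oriR {l r : List Bool} {a o : Bool} {B : List Piece}
    (h : (runO ((.cup o, l.length) :: (.cap, l.length + 1) :: B) (l ++ a :: r)).isSome) : a = o := by
  obtain ⟨_, w, s, g⟩ := LB.fits h
  have e1 := LB.osplit (.cup o) l [] (a :: r) rfl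
  have e3 : l ++ [] ++ a :: r = l ++ a :: r := by simp
  rw [e3, s] at e1
  have e4 : w = (l ++ [o]) ++ [!o, a] ++ r := by
    have : (some w : Option (List Bool)) = some (l ++ [o, !o] ++ a :: r) := e1
    rw [Option.some.injEq] at this
    rw [this]
    simp
  obtain ⟨_, w', s', _⟩ := LB.fits g
  have e5 : (l ++ [o]).length = l.length + 1 := by simp
  rw [e4, ← e5, LB.osplit .cap (l ++ [o]) [!o, a] _ rfl] at s'
  by_contra hne
  have : Kind.ori .cap [!o, a] = none := by
    simp [Kind.ori, hne]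
  rw [this] at s'
  simp at s'

end XZIG

open XZIG in
theorem p_ZIG : S_ZIG := by
  refine ⟨?_, ?_⟩
  · intro o i Q L A _ _ _ K μ _ B os hX _ v hv
    obtain ⟨f1, w1, s1, g1⟩ := LB.fits hX
    simp only [Kind.ar] at f1
    have hlen : os.length = v.length := by rw [← hv, List.length_map]
    obtain ⟨l, a, r, rfl, rfl⟩ := LB.dec1 v i (by omega)
    have ho : o = !a.1 := by
      rw [← hv, List.map_append, List.map_cons] at hX
      apply oriL (l := l.map Prod.fst) (r := r.map Prod.fst) (B := B)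
      rw [List.length_map]
      exact hX
    ext H
    show H ∈ St K μ ((.cup o, l.length + 1) :: (.cap, l.length) :: B) (l ++ a :: r) ↔ H ∈ St K μ B (l ++ a :: r)
    rw [mcup1]
    simp only [mcap]
    have key : ∀ c, a.2 = c → ((!o, c) : Bool × Q) = a := by
      rintro c rfl
      rw [ho, Bool.not_not]
    constructor
    · rintro ⟨c, H1, ⟨⟨hc, _⟩, H', hH', rfl⟩, rfl⟩
      rw [key c hc] at hH'
      have h := low K μ hH'
      have h1 : lsO K (l ++ a :: (o, c) :: (!o, c) :: r) ≤ H'.1 := by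
        subst hc
        simp only [ls_append, ls_cons, sup_le_iff] at h ⊢
        tauto
      simp only
      rw [sup_eq_right.2 h1, sup_eq_right.2 h]
      exact hH'
    · intro hH
      have h := low K μ hH
      have h1 : lsO K (l ++ a :: (o, a.2) :: (!o, a.2) :: r) ≤ H.1 := by
        simp only [ls_append, ls_cons, sup_le_iff] at h ⊢
        tauto
      refine ⟨a.2, H, ⟨⟨rfl, ho⟩, H, ?_, ?_⟩, ?_⟩
      · rw [key a.2 rfl]
        exact hH
      · rw [sup_eq_right.2 h1]
      · rw [sup_eq_right.2 h]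
  · intro o i Q L A _ _ _ K μ _ B os hX _ v hv
    obtain ⟨f1, w1, s1, g1⟩ := LB.fits hX
    obtain ⟨f2, w2, s2, g2⟩ := LB.fits g1
    have e1 := LB.step_len s1
    simp only [Kind.ar, Kind.oar] at f1 f2 e1
    have hlen : os.length = v.length := by rw [← hv, List.length_map]
    obtain ⟨l, a, r, rfl, rfl⟩ := LB.dec1 v i (by omega)
    have ho : a.1 = o := by
      rw [← hv, List.map_append, List.map_cons] at hX
      apply oriR (l := l.map Prod.fst) (r := r.map Prod.fst) (B := B)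
      rw [List.length_map]
      exact hX
    ext H
    show H ∈ St K μ ((.cup o, l.length) :: (.cap, l.length + 1) :: B) (l ++ a :: r) ↔ H ∈ St K μ B (l ++ a :: r)
    rw [mcup]
    simp only [mcap1]
    have key : ∀ c, c = a.2 → ((o, c) : Bool × Q) = a := by
      rintro c rfl
      rw [← ho]
    constructor
    · rintro ⟨c, H1, ⟨⟨hc, _⟩, H', hH', rfl⟩, rfl⟩
      rw [key c hc] at hH'
      have h := low K μ hH'
      have h1 : lsO K (l ++ (o, c) :: (!o, c) :: a :: r) ≤ H'.1 := by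
        subst hc
        simp only [ls_append, ls_cons, sup_le_iff] at h ⊢
        tauto
      simp only
      rw [sup_eq_right.2 h1, sup_eq_right.2 h]
      exact hH'
    · intro hH
      have h := low K μ hH
      have h1 : lsO K (l ++ (o, a.2) :: (!o, a.2) :: a :: r) ≤ H.1 := by
        simp only [ls_append, ls_cons, sup_le_iff] at h ⊢
        tauto
      refine ⟨a.2, H, ⟨⟨rfl, by simp [ho]⟩, H, ?_, ?_⟩, ?_⟩
      · rw [key a.2 rfl]
        exact hH
      · rw [sup_eq_right.2 h1]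
      · rw [sup_eq_right.2 h]

end Pool.BraidIndex.Cf
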