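import Pool.Agent.Work.MP_9d4fac_cf.Interface

/-!
# CAPS: before the caps the colours are a list followed by its reverse
-/

set_option autoImplicit false

namespace Pool.BraidIndex.Cf

open Pool.BraidIndex Pool.BraidIndex.Cox

theorem CAPS_ls_append {Q L : Type} [SemilatticeSup L] [OrderBot L] (K : Kei Q L) (v w : List Q) :
    ls K (v ++ w) = ls K v ⊔ ls K w := by
  induction v with
  | nil =>
    rw [List.nil_append]
    exact (bot_sup_eq _).symm
  | cons a v ih =>
    rw [List.cons_append]
    change K.U a ⊔ ls K (v ++ w) = (K.U a ⊔ ls K v) ⊔ ls K w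
    rw [ih, sup_assoc]

theorem p_CAPS : S_CAPS := by
  intro Q L A _ _ _ K μ n
  induction n with
  | zero =>
    intro V H e h
    obtain ⟨h1, h2⟩ : V = [] ∧ (H, e) = (⊥, 0) := h
    rw [Prod.mk.injEq] at h2
    refine ⟨[], rfl, ?_, ?_, h2.2⟩
    · rw [h1]; rfl
    · rw [h2.1]; exact bot_le
  | succ n ih =>
    intro V H e h
    rw [List.range_succ, List.reverse_append, List.reverse_singleton, List.singleton_append, List.map_cons] at h
    obtain ⟨v', hv', H', hH', hHe⟩ : ∃ v' ∈ actsO K μ (Kind.cap, n) V,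
      ∃ H' ∈ St K μ ((List.range n).reverse.map (fun j => (Kind.cap, j))) v'.1,
        (H, e) = (lsO K V ⊔ H'.1, v'.2 + H'.2) := h
    obtain ⟨l, u, r, u', hl, hu, hV, hu', hw⟩ := hv'
    obtain ⟨a, b, rfl⟩ : ∃ a b, u = [a, b] := by
      match u, hu with
      | [a, b], _ => exact ⟨a, b, rfl⟩
    obtain ⟨hab, -, hu2⟩ : a.2 = b.2 ∧ b.1 = !a.1 ∧ u' = ([], 0) := hu'
    simp only at hl
    subst hu2
    subst hw
    simp only [List.append_nil] at hH'
    obtain ⟨H1, e1⟩ := H'
    obtain ⟨w, hwl, hw2, hw3, hw4⟩ := ih (l ++ r) H1 e1 hH'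
    rw [List.map_append] at hw2
    have hll : (l.map Prod.snd).length = w.length := by rw [List.length_map, hl, hwl]
    obtain ⟨h1, h2⟩ := List.append_inj hw2 hll
    rw [Prod.mk.injEq] at hHe
    refine ⟨w ++ [a.2], by rw [List.length_append, hwl]; rfl, ?_, ?_, ?_⟩
    · rw [hV, List.map_append, List.map_append, h1, h2, List.reverse_append]
      simp [← hab]
    · rw [hHe.1]
      refine sup_le le_rfl (hw3.trans ?_)
      rw [hV]
      unfold lsO
      rw [List.map_append, List.map_append, List.map_append, CAPS_ls_append, CAPS_ls_append, CAPS_ls_append]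
      exact sup_le_sup_right le_sup_left _
    · rw [hHe.2, hw4, add_zero]

end Pool.BraidIndex.Cf
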