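import Pool.Agent.Work.MP_9d4fac_cf.Interface

set_option autoImplicit false

/-! # Block FIN (helper33) -/

namespace Pool.BraidIndex.Cf

open Pool.BraidIndex Pool.BraidIndex.Cox

theorem p_FIN (hISO : S_ISO) (hBRA : S_BRA) (hKEI : S_KEI) (hTWO : S_TWO) (hLOW : S_LOW) (hSPN : S_SPN)
    (hLSU : S_LSU) (hCNT : S_CNT) (hFL2 : S_FL2) (hLK : S_LK) : S_FIN := by
  intro D hD κ π _ _ _ N pr lab c hcol hsurj S hS hdisj n w hw hiso
  obtain ⟨K, hop, hU, hWt⟩ := hKEI κ π N pr
  have hc := hcol K hop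
  obtain ⟨H, hH, hle⟩ := hLOW _ _ _ K (muC N) D _ hD hc
  rw [hISO _ _ _ K (muC N) hWt D _ hiso] at hH
  obtain ⟨v, hv, hBW, hHv⟩ := hBRA _ _ _ K (muC N) n w H _ hw hH
  have hls := hLSU κ π N pr K hU v
  have hlab : ∀ k, k ∈ v.map Prod.fst := by
    intro k
    obtain ⟨q, hq, hk⟩ := hsurj k
    have h1 : K.U (lab q, c q) ≤ ls K v := (hle q hq).trans hHv
    rw [hU] at h1
    have h2 : lab q ∈ (ls K v).1 := h1.1 rfl
    rw [hls.1] at h2
    obtain ⟨c', hc', e'⟩ := h2
    rw [List.mem_map]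
    exact ⟨c', hc', e'.trans hk⟩
  by_contra hcon
  have hex : ∃ p ∈ S, (v.map Prod.fst).count p.1 + (v.map Prod.fst).count p.2 < 3 := by
    by_contra hno
    push Not at hno
    have h3 := hCNT κ (v.map Prod.fst) S hlab (fun p hp => (hS p hp).1) (fun p hp p' hp' h =>
      hdisj p hp p' hp' (by
        have a1 := (hS p hp).2.1
        have a2 := (hS p' hp').2.1
        rcases h with h | h | h | h
        · rw [h]
        · rw [h, ← a2]
        · rw [a1, h]
        · rw [a1, h, ← a2])) hno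
    rw [List.length_map, hv] at h3
    exact hcon h3
  obtain ⟨p, hp, hlt⟩ := hex
  have c1 := List.count_pos_iff.2 (hlab p.1)
  have c2 := List.count_pos_iff.2 (hlab p.2)
  obtain ⟨hne, hpr, hblock, q, q', hq, hq', hlq, hlq', hnz⟩ := hS p hp
  obtain ⟨x, y, hfil, hxy⟩ := hFL2 κ (ZMod N) v p.1 p.2 hne (by omega) (by omega)
  obtain ⟨x', y', hfil', -, hx', -⟩ := hTWO κ π N pr K hop w v v _ hBW p.1 p.2 hne hpr hblock x y hfil hxy
  rw [hfil] at hfil'
  have hxx : x = x' := (List.cons.inj hfil').1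
  rw [← hxx] at hx'
  have hlk := hLK κ N D lab c p.1 p.2 hne
  rw [hlk] at hx'
  have hz : (lk2 D lab p.1 p.2 : ZMod N) * (x.2 - y.2) = 0 := by
    have := left_eq_add.mp hx'
    exact this
  have hf : v.filter (fun c => decide (pr c.1 = pr p.1)) = [x, y] := by
    rw [← hfil]
    apply List.filter_congr
    intro c' _
    have : pr c'.1 = pr p.1 ↔ (c'.1 = p.1 ∨ c'.1 = p.2) := by
      constructor
      · exact hblock _
      · rintro (h | h)
        · rw [h]
        · rw [h, hpr]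
    rw [decide_eq_decide]
    exact this
  have key : ∀ q, InR D q → pr (lab q) = pr p.1 → (c q, (1 : ZMod N)) ∈
      Submodule.span (ZMod N) {(x.2, (1 : ZMod N))} ⊔ Submodule.span (ZMod N) {(y.2, (1 : ZMod N))} := by
    intro q hq hl
    have h1 : K.U (lab q, c q) ≤ ls K v := (hle q hq).trans hHv
    rw [hU] at h1
    have h2 := h1.2 (pr p.1)
    rw [hls.2, hf] at h2
    have h3 : (c q, (1 : ZMod N)) ∈ (UC N pr (lab q, c q)).2 (pr p.1) := by
      show _ ∈ (if pr p.1 = pr (lab q) then Submodule.span (ZMod N) {(c q, (1 : ZMod N))} else ⊥)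
      rw [if_pos hl.symm]
      exact Submodule.subset_span rfl
    have h4 := h2 h3
    simpa using h4
  obtain ⟨a, ha⟩ := hSPN N x.2 y.2 (c q) (c q') (key q hq hlq) (key q' hq' hlq')
  apply hnz
  rw [ha]
  calc (lk2 D lab p.1 p.2 : ZMod N) * (a * (x.2 - y.2))
      = a * ((lk2 D lab p.1 p.2 : ZMod N) * (x.2 - y.2)) := by ring
    _ = 0 := by rw [hz, mul_zero]

end Pool.BraidIndex.Cf
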