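import Pool.Agent.Work.MP_9d4fac_cf.Interface

set_option autoImplicit false

/-! # Block LK (helper33) -/

namespace Pool.BraidIndex.Cf

open Pool.BraidIndex Pool.BraidIndex.Cox

theorem p_LKx : S_LK := by
  intro κ _ N D lab c i j hij
  rw [Finset.sum_apply, Finset.sum_apply]
  unfold lk2
  refine Finset.sum_congr rfl fun t _ => ?_
  unfold wtAt
  rcases hq : D[t]? with _ | ⟨k, m⟩
  · rfl
  · cases k with
    | cup o => rfl
    | cap => rfl
    | cross s =>
      show sg s _ _ • (muC N _ _ i j) = _
      simp only [muC]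
      by_cases h : (lab (t, m) = i ∧ lab (t, m + 1) = j) ∨ (lab (t, m) = j ∧ lab (t, m + 1) = i)
      · rw [if_pos h, if_pos ⟨hij, h⟩, smul_eq_mul, mul_one]
      · rw [if_neg h, if_neg (fun h' => h h'.2), smul_zero]

end Pool.BraidIndex.Cf
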