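import Pool.Agent.Work.MP_9d4fac_cf.Interface

set_option autoImplicit false

/-! # Block LSU (helper33) -/

namespace Pool.BraidIndex.Cf

open Pool.BraidIndex Pool.BraidIndex.Cox

theorem p_LSUx : S_LSU := by
  intro κ π _ _ N pr K hU v
  induction v with
  | nil =>
    refine ⟨?_, fun b => rfl⟩
    show (∅ : Set κ) = _
    ext k
    simp
  | cons a v ih =>
    have e : ls K (a :: v) = K.U a ⊔ ls K v := rfl
    rw [e, hU]
    refine ⟨?_, fun b => ?_⟩
    · show ({a.1} : Set κ) ∪ (ls K v).1 = _
      rw [ih.1]
      ext k
      simp only [Set.mem_union, Set.mem_singleton_iff, Set.mem_setOf_eq, List.mem_cons, exists_eq_or_imp]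
      constructor
      · rintro (h | h)
        · exact Or.inl h.symm
        · exact Or.inr h
      · rintro (h | h)
        · exact Or.inl h.symm
        · exact Or.inr h
    · show (if b = pr a.1 then Submodule.span (ZMod N) {(a.2, (1 : ZMod N))} else ⊥) ⊔ (ls K v).2 b = _
      rw [ih.2 b]
      by_cases h : pr a.1 = b
      · rw [if_pos h.symm, List.filter_cons_of_pos (by simpa using h), List.map_cons, List.foldr_cons]
      · rw [if_neg (fun h' => h h'.symm), List.filter_cons_of_neg (by simpa using h), bot_sup_eq]

end Pool.BraidIndex.Cf
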