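import Pool.Agent.Work.MP_9d4fac_cf.Interface

set_option autoImplicit false

namespace Pool.BraidIndex.Cf

open Pool.BraidIndex Pool.BraidIndex.Cox

namespace XMIDx

variable {Q L A : Type} [SemilatticeSup L] [OrderBot L] [AddCommGroup A] (K : Kei Q L) (μ : Q → Q → A)

theorem ls_cons (a : Q) (v : List Q) : ls K (a :: v) = K.U a ⊔ ls K v := rfl

theorem ls_nil : ls K [] = ⊥ := rfl

theorem ls_append (v w : List Q) : ls K (v ++ w) = ls K v ⊔ ls K w := by
  induction v with
  | nil => rw [List.nil_append, ls_nil, bot_sup_eq]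
  | cons a v ih => rw [List.cons_append, ls_cons, ls_cons, ih, sup_assoc]

theorem lsO_append (v : List Q) (V : List (Bool × Q)) :
    lsO K (v.map (fun c => (true, c)) ++ V) = ls K v ⊔ lsO K V := by
  rw [lsO, List.map_append, ls_append, lsO, List.map_map]
  congr 2
  exact List.map_id _

theorem next_le (s : Bool) (a b : Q) (l r : List Q) :
    ls K (l ++ (if s then [K.op a b, a] else [b, K.op b a]) ++ r) ≤ ls K (l ++ [a, b] ++ r) := by
  rw [ls_append, ls_append, ls_append, ls_append]
  refine sup_le_sup_right (sup_le_sup_left ?_ _) _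
  cases s with
  | true =>
    rw [if_pos rfl, ls_cons, ls_cons, ls_cons, ls_cons, ls_nil, sup_bot_eq, sup_bot_eq]
    exact sup_le (K.sub a b) le_sup_left
  | false =>
    rw [if_neg (by simp), ls_cons, ls_cons, ls_cons, ls_cons, ls_nil, sup_bot_eq, sup_bot_eq]
    exact sup_le le_sup_right ((K.sub b a).trans (sup_comm _ _).le)

end XMIDx

open XMIDx in
theorem p_MIDx : S_MID := by
  intro Q L A _ _ _ K μ n w X
  induction w with
  | nil =>
    intro v V H e _ hv h
    exact ⟨v, 0, e, H, BW.nil v, hv, h, (zero_add e).symm, le_rfl, le_sup_right⟩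
  | cons x w ih =>
    obtain ⟨i, s⟩ := x
    intro v V H e hw hv h
    obtain ⟨v1, ⟨l, u, r, u', hl, hu, hvv, hu', rfl⟩, ⟨H1, e1⟩, h1, he⟩ := h
    simp only at hl hu hu'
    obtain ⟨a, b, rfl⟩ : ∃ a b, u = [a, b] := List.length_eq_two.1 hu
    have hi : i + 1 < n := hw (i, s) (by simp)
    -- split `v`
    obtain ⟨l0, a0, b0, r0, rfl, hl0⟩ : ∃ l0 a0 b0 r0, v = l0 ++ [a0, b0] ++ r0 ∧ l0.length = i := by
      have e2 : v = v.take i ++ ((v.drop i).take 2 ++ (v.drop i).drop 2) := by
        rw [List.take_append_drop, List.take_append_drop]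
      have e3 : ((v.drop i).take 2).length = 2 := by
        rw [List.length_take, List.length_drop]; omega
      obtain ⟨a0, b0, h4⟩ := List.length_eq_two.1 e3
      refine ⟨v.take i, a0, b0, (v.drop i).drop 2, ?_, by rw [List.length_take]; omega⟩
      rw [List.append_assoc, ← h4]
      exact e2
    have hvv' : l0.map (fun c => (true, c)) ++ ([(true, a0), (true, b0)] ++ (r0.map (fun c => (true, c)) ++ V)) =
        l ++ ([a, b] ++ r) := by
      rw [← List.append_assoc l, ← hvv]
      simp only [List.map_append, List.append_assoc, List.map_cons, List.map_nil]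
    obtain ⟨g1, g2⟩ := List.append_inj hvv' (by rw [List.length_map]; omega)
    obtain ⟨g3, g4⟩ := List.append_inj g2 rfl
    simp only [List.cons.injEq, and_true] at g3
    obtain ⟨rfl, rfl⟩ := g3
    subst g1 g4
    have hu2 : u' = (if s then [(true, K.op a0 b0), (true, a0)] else [(true, b0), (true, K.op b0 a0)],
      sg s true true • μ a0 b0) := hu'
    subst hu2
    simp only at h1
    have h2 : (H1, e1) ∈ St K μ (w.map (fun x => (Kind.cross x.2, x.1)) ++ X)
        ((l0 ++ (if s then [K.op a0 b0, a0] else [b0, K.op b0 a0]) ++ r0).map (fun c => (true, c)) ++ V) := by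
      convert h1 using 1
      cases s <;> simp
    have hlen : (l0 ++ (if s then [K.op a0 b0, a0] else [b0, K.op b0 a0]) ++ r0).length = n := by
      rw [← hv]; cases s <;> simp
    obtain ⟨v', f1, f2, H', k1, k2, k3, k4, k5, k6⟩ := ih _ V H1 e1 (fun y hy => hw y (List.mem_cons_of_mem _ hy)) hlen h2
    have hs : sg s true true = (if s then (1 : ℤ) else -1) := by simp [sg]
    simp only [Prod.mk.injEq] at he
    refine ⟨v', (if s then (1 : ℤ) else -1) • μ a0 b0 + f1, f2, H', ?_, k2, k3, ?_, k5.trans (next_le K s a0 b0 l0 r0), ?_⟩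
    · have := BW.cons l0 r0 a0 b0 s w v' f1 k1
      rw [hl0] at this
      exact this
    · rw [he.2, k4, hs, add_assoc]
    · rw [he.1, lsO_append]
      refine sup_le le_sup_left (k6.trans ?_)
      exact sup_le_sup_right (sup_le_sup_right (next_le K s a0 b0 l0 r0) _) _

end Pool.BraidIndex.Cf
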