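import Pool.Agent.Work.MP_9d4fac_cox.Interface

/-!
# Braid index and pairs of components with a Fox colouring which a torus link `T(2, 2 k)` does not have

Strands carry an orientation and a colour (a label and a residue). `St K μ D v` is the set of the pairs (supremum of the supports
of all colours, sum of the weights of the crossings) for all colourings of `D` which start with the strands `v`.
-/

set_option autoImplicit false

namespace Pool.BraidIndex.Cf

open Pool.BraidIndex Pool.BraidIndex.Cox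

/-- the sign of a crossing: `x`, `y` are the orientations of the two strands -/
def sg (s x y : Bool) : ℤ := (if s then 1 else -1) * (if x = y then 1 else -1)

section
variable {Q L A : Type} [SemilatticeSup L] [OrderBot L] [AddCommGroup A] (K : Kei Q L) (μ : Q → Q → A)

/-- the possible strands (orientation, colour) which leave a piece, with the weight of the piece -/
def colsO : Kind → List (Bool × Q) → Set (List (Bool × Q) × A)
  | .cup o, [] => {u | ∃ c, u = ([(o, c), (!o, c)], 0)}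
  | .cap, [a, b] => {u | a.2 = b.2 ∧ b.1 = !a.1 ∧ u = ([], 0)}
  | .cross s, [a, b] => {u | u = (if s then [(b.1, K.op a.2 b.2), a] else [b, (a.1, K.op b.2 a.2)],
      sg s a.1 b.1 • μ a.2 b.2)}
  | _, _ => ∅

/-- the possible strands after a piece, with the weight of the piece -/
def actsO (q : Piece) (v : List (Bool × Q)) : Set (List (Bool × Q) × A) :=
  {w | ∃ l u r u', l.length = q.2 ∧ u.length = q.1.ar ∧ v = l ++ u ++ r ∧ u' ∈ colsO K μ q.1 u ∧
    w = (l ++ u'.1 ++ r, u'.2)}

/-- the supremum of the supports of the colours of a list of strands -/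
def lsO (v : List (Bool × Q)) : L := ls K (v.map Prod.snd)

/-- the pairs (supremum of the supports of all colours, sum of all weights) -/
def St : List Piece → List (Bool × Q) → Set (L × A)
  | [], v => {H | v = [] ∧ H = (⊥, 0)}
  | q :: D, v => {H | ∃ v' ∈ actsO K μ q v, ∃ H' ∈ St D v'.1, H = (lsO K v ⊔ H'.1, v'.2 + H'.2)}

/-- the weight is symmetric, zero for equal colours and does not change when a strand passes under another one -/
def Wt : Prop := (∀ a b, μ a b = μ b a) ∧ (∀ a, μ a a = 0) ∧ ∀ a b c, μ (K.op a b) c = μ b c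

/-- the action of a braid word on the colours of the strands, with the weight -/
inductive BW : List (ℕ × Bool) → List Q → List Q → A → Prop
  | nil (v : List Q) : BW [] v v 0
  | cons (l r : List Q) (a b : Q) (s : Bool) (w : List (ℕ × Bool)) (v' : List Q) (e : A) :
      BW w (l ++ (if s then [K.op a b, a] else [b, K.op b a]) ++ r) v' e →
      BW ((l.length, s) :: w) (l ++ [a, b] ++ r) v' ((if s then (1 : ℤ) else -1) • μ a b + e)

/-- `c` is a colouring of the points of `D` -/
structure IsCol (D : List Piece) (c : ℕ × ℕ → Q) : Prop where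
  left : ∀ t i k j, D[t]? = some (k, i) → j < i → c (t, j) = c (t + 1, j)
  right : ∀ t i k j, D[t]? = some (k, i) → i + k.ar + j < (ori D t).length →
    c (t, i + k.ar + j) = c (t + 1, i + k.oar + j)
  cup : ∀ t i o, D[t]? = some (.cup o, i) → c (t + 1, i) = c (t + 1, i + 1)
  cap : ∀ t i, D[t]? = some (.cap, i) → c (t, i) = c (t, i + 1)
  crossT : ∀ t i, D[t]? = some (.cross true, i) →
    c (t + 1, i) = K.op (c (t, i)) (c (t, i + 1)) ∧ c (t + 1, i + 1) = c (t, i)
  crossF : ∀ t i, D[t]? = some (.cross false, i) →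
    c (t + 1, i) = c (t, i + 1) ∧ c (t + 1, i + 1) = K.op (c (t, i + 1)) (c (t, i))

/-- the weight of the piece number `t` -/
def wtAt (D : List Piece) (c : ℕ × ℕ → Q) (t : ℕ) : A :=
  match D[t]? with
  | some (.cross s, i) => sg s ((ori D t).getD i true) ((ori D t).getD (i + 1) true) • μ (c (t, i)) (c (t, i + 1))
  | _ => 0

end

/-! ### The colours: a label in `κ` and a residue; the labels are divided into blocks by `pr` -/

section
variable {κ π : Type} [DecidableEq κ] [DecidableEq π] (N : ℕ) (pr : κ → π)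

/-- reflection inside the blocks, nothing between different blocks -/
def opC (a b : κ × ZMod N) : κ × ZMod N := (b.1, if pr a.1 = pr b.1 then 2 * a.2 - b.2 else b.2)

/-- the lattice of supports -/
abbrev Lt (κ π : Type) (N : ℕ) := Set κ × (π → Submodule (ZMod N) (ZMod N × ZMod N))

/-- the support of a colour: its label and the line of `(x, 1)` in the coordinate of its block -/
def UC (a : κ × ZMod N) : Lt κ π N :=
  ({a.1}, fun b => if b = pr a.1 then Submodule.span (ZMod N) {(a.2, 1)} else ⊥)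

/-- the weight: the pair of labels -/
def muC (a b : κ × ZMod N) : κ → κ → ℤ := fun i j =>
  if i ≠ j ∧ ((a.1 = i ∧ b.1 = j) ∨ (a.1 = j ∧ b.1 = i)) then 1 else 0

/-- the sum of the signs of the crossings between the labels `i ≠ j` = twice the linking number -/
def lk2 (D : List Piece) (lab : ℕ × ℕ → κ) (i j : κ) : ℤ := ∑ t ∈ Finset.range D.length,
  match D[t]? with
  | some (.cross s, k) => if (lab (t, k) = i ∧ lab (t, k + 1) = j) ∨ (lab (t, k) = j ∧ lab (t, k + 1) = i) then
      sg s ((ori D t).getD k true) ((ori D t).getD (k + 1) true) else 0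
  | _ => 0

end

/-! ### Blocks -/

/-- far -/
def S_FAR : Prop := ∀ (Q L A : Type) [SemilatticeSup L] [OrderBot L] [AddCommGroup A] (K : Kei Q L) (μ : Q → Q → A)
  (k1 k2 : Kind) (i d : ℕ) (B : List Piece) (os : List Bool),
  (runO ([(k1, i), (k2, i + k1.oar + d)] ++ B) os).isSome → (runO ([(k2, i + k1.ar + d), (k1, i)] ++ B) os).isSome →
  ∀ v : List (Bool × Q), v.map Prod.fst = os →
    St K μ ([(k1, i), (k2, i + k1.oar + d)] ++ B) v = St K μ ([(k2, i + k1.ar + d), (k1, i)] ++ B) v

/-- the move `X`, `Y` does not change `St` -/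
def Inv (X Y : List Piece) : Prop := ∀ (Q L A : Type) [SemilatticeSup L] [OrderBot L] [AddCommGroup A] (K : Kei Q L)
  (μ : Q → Q → A), Wt K μ → ∀ (B : List Piece) (os : List Bool), (runO (X ++ B) os).isSome → (runO (Y ++ B) os).isSome →
  ∀ v : List (Bool × Q), v.map Prod.fst = os → St K μ (X ++ B) v = St K μ (Y ++ B) v

/-- ZIG: zigzags (weight 0) -/
def S_ZIG : Prop := (∀ o i, Inv [(.cup o, i + 1), (.cap, i)] []) ∧ ∀ o i, Inv [(.cup o, i), (.cap, i + 1)] []

/-- R1: weight `μ c c = 0`, `op c c = c` -/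
def S_R1 : Prop := (∀ o s i, Inv [(.cup o, i), (.cross s, i)] [(.cup (!o), i)]) ∧
  ∀ s i, Inv [(.cross s, i), (.cap, i)] [(.cap, i)]

/-- R2: the two weights cancel -/
def S_R2 : Prop := ∀ s i, Inv [(.cross s, i), (.cross (!s), i)] []

/-- R3 -/
def S_R3 : Prop := ∀ s i, Inv [(.cross s, i), (.cross s, i + 1), (.cross s, i)]
  [(.cross s, i + 1), (.cross s, i), (.cross s, i + 1)]

/-- SCU -/
def S_SCU : Prop := ∀ o s i, Inv [(.cup o, i), (.cross s, i + 1)] [(.cup o, i + 1), (.cross (!s), i)]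

/-- SCA -/
def S_SCA : Prop := ∀ s i, Inv [(.cross s, i), (.cap, i + 1)] [(.cross (!s), i + 1), (.cap, i)]

/-- ISO (uses FAR ZIG R1 R2 R3 SCU SCA): moves in context; compare MP_9d4fac_cox/Isotopic.lean -/
def S_ISO : Prop := ∀ (Q L A : Type) [SemilatticeSup L] [OrderBot L] [AddCommGroup A] (K : Kei Q L) (μ : Q → Q → A),
  Wt K μ → ∀ D D' : List Piece, Isotopic D D' → St K μ D [] = St K μ D' []

/-- CUPS: after the cups `0, ..., n - 1` the colours are `v ++ v.reverse` -/
def S_CUPS : Prop := ∀ (Q L A : Type) [SemilatticeSup L] [OrderBot L] [AddCommGroup A] (K : Kei Q L) (μ : Q → Q → A)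
  (n : ℕ) (X : List Piece) (H : L) (e : A), (H, e) ∈ St K μ ((List.range n).map (fun j => (Kind.cup true, j)) ++ X) [] →
  ∃ v : List Q, v.length = n ∧ ∃ H' : L,
    (H', e) ∈ St K μ X (v.map (fun c => (true, c)) ++ v.reverse.map (fun c => (false, c))) ∧ H ≤ ls K v ⊔ H'

/-- MID: the crossings of the braid word act on the first `n` strands (induction on `w`) -/
def S_MID : Prop := ∀ (Q L A : Type) [SemilatticeSup L] [OrderBot L] [AddCommGroup A] (K : Kei Q L) (μ : Q → Q → A)
  (n : ℕ) (w : List (ℕ × Bool)) (X : List Piece) (v : List Q) (V : List (Bool × Q)) (H : L) (e : A), IsBraidWord n w →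
  v.length = n → (H, e) ∈ St K μ (w.map (fun x => (Kind.cross x.2, x.1)) ++ X) (v.map (fun c => (true, c)) ++ V) →
  ∃ (v' : List Q) (e1 e2 : A) (H' : L), BW K μ w v v' e1 ∧ v'.length = n ∧
    (H', e2) ∈ St K μ X (v'.map (fun c => (true, c)) ++ V) ∧ e = e1 + e2 ∧ ls K v' ≤ ls K v ∧
    H ≤ ls K v ⊔ lsO K V ⊔ H'

/-- CAPS: before the caps `n - 1, ..., 0` the colours are `v ++ v.reverse` -/
def S_CAPS : Prop := ∀ (Q L A : Type) [SemilatticeSup L] [OrderBot L] [AddCommGroup A] (K : Kei Q L) (μ : Q → Q → A)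
  (n : ℕ) (V : List (Bool × Q)) (H : L) (e : A), (H, e) ∈ St K μ ((List.range n).reverse.map (fun j => (Kind.cap, j))) V →
  ∃ v : List Q, v.length = n ∧ V.map Prod.snd = v ++ v.reverse ∧ H ≤ lsO K V ∧ e = 0

/-- BRA (uses CUPS MID CAPS): a colouring of a closed braid is a fixed list of colours -/
def S_BRA : Prop := ∀ (Q L A : Type) [SemilatticeSup L] [OrderBot L] [AddCommGroup A] (K : Kei Q L) (μ : Q → Q → A)
  (n : ℕ) (w : List (ℕ × Bool)) (H : L) (e : A), IsBraidWord n w → (H, e) ∈ St K μ (braidClosure n w) [] →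
  ∃ v : List Q, v.length = n ∧ BW K μ w v v e ∧ H ≤ ls K v

/-- KEI: the colours form a kei with supports, `muC` is a weight -/
def S_KEI : Prop := ∀ (κ π : Type) [DecidableEq κ] [DecidableEq π] (N : ℕ) (pr : κ → π),
  ∃ K : Kei (κ × ZMod N) (Lt κ π N), K.op = opC N pr ∧ K.U = UC N pr ∧ Wt K (muC N)

/-- TWO: if `{A, B}` is a block and there is exactly one strand with label `A` and exactly one with label `B` (`x` left, `y`
right) then every crossing of the two adds `± (x - y)` to both residues and keeps `x - y`; `e A B` is the sum of the signs.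
Induction on `BW`; strands of other blocks change nothing. -/
def S_TWO : Prop := ∀ (κ π : Type) [DecidableEq κ] [DecidableEq π] (N : ℕ) (pr : κ → π)
  (K : Kei (κ × ZMod N) (Lt κ π N)), K.op = opC N pr → ∀ (w : List (ℕ × Bool)) (v v' : List (κ × ZMod N))
  (e : κ → κ → ℤ), BW K (muC N) w v v' e → ∀ A B : κ, A ≠ B → pr A = pr B → (∀ l, pr l = pr A → l = A ∨ l = B) →
  ∀ x y : κ × ZMod N, v.filter (fun c => decide (c.1 = A ∨ c.1 = B)) = [x, y] → x.1 ≠ y.1 →
  ∃ x' y' : κ × ZMod N, v'.filter (fun c => decide (c.1 = A ∨ c.1 = B)) = [x', y'] ∧ x'.1 ≠ y'.1 ∧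
    x'.2 = x.2 + (e A B : ZMod N) * (x.2 - y.2) ∧ y'.2 = y.2 + (e A B : ZMod N) * (x.2 - y.2)

/-- LOW: a colouring of the points of `D` gives an element of `St`; compare MP_9d4fac_cox/CLower.lean -/
def S_LOW : Prop := ∀ (Q L A : Type) [SemilatticeSup L] [OrderBot L] [AddCommGroup A] (K : Kei Q L) (μ : Q → Q → A)
  (D : List Piece) (c : ℕ × ℕ → Q), IsDiagram D → IsCol K D c →
  ∃ H : L, (H, ∑ t ∈ Finset.range D.length, wtAt μ D c t) ∈ St K μ D [] ∧ ∀ q, InR D q → K.U (c q) ≤ H

/-- SPN: if all labels of the block of `b` in the list `v` are in `x`, `y` (the values `x.2`, `y.2`), every residue `z` in the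
support is on the line: `z - z'` is a multiple of `x.2 - y.2`. Here: `(z, 1)`, `(z', 1)` in the span of `(x, 1)`, `(y, 1)`. -/
def S_SPN : Prop := ∀ (N : ℕ) (x y z z' : ZMod N),
  (z, (1 : ZMod N)) ∈ Submodule.span (ZMod N) {(x, (1 : ZMod N))} ⊔ Submodule.span (ZMod N) {(y, (1 : ZMod N))} →
  (z', (1 : ZMod N)) ∈ Submodule.span (ZMod N) {(x, (1 : ZMod N))} ⊔ Submodule.span (ZMod N) {(y, (1 : ZMod N))} →
  ∃ a : ZMod N, z - z' = a * (x - y)

/-- LSU: the support of a list of colours: the labels, and in the coordinate of the block `b` the sum of the lines of the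
colours whose label is in the block `b` -/
def S_LSU : Prop := ∀ (κ π : Type) [DecidableEq κ] [DecidableEq π] (N : ℕ) (pr : κ → π)
  (K : Kei (κ × ZMod N) (Lt κ π N)), K.U = UC N pr → ∀ v : List (κ × ZMod N),
  (ls K v).1 = {k | ∃ c ∈ v, c.1 = k} ∧ ∀ b : π, (ls K v).2 b =
    ((v.filter fun c => decide (pr c.1 = b)).map fun c => Submodule.span (ZMod N) {(c.2, (1 : ZMod N))}).foldr (· ⊔ ·) ⊥

/-- CNT: counting. If every label occurs in `v` and every pair of `S` occurs at least three times (the pairs are disjoint) then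
`card κ + card S ≤ length v`. -/
def S_CNT : Prop := ∀ (κ : Type) [Fintype κ] [DecidableEq κ] (v : List κ) (S : Finset (κ × κ)), (∀ k, k ∈ v) →
  (∀ p ∈ S, p.1 ≠ p.2) → (∀ p ∈ S, ∀ p' ∈ S, (p.1 = p'.1 ∨ p.1 = p'.2 ∨ p.2 = p'.1 ∨ p.2 = p'.2) → p = p') →
  (∀ p ∈ S, 3 ≤ v.count p.1 + v.count p.2) → Fintype.card κ + S.card ≤ v.length

/-- FL2: a list in which `A` and `B` occur exactly once each (as labels): the filter is `[x, y]` with different labels -/
def S_FL2 : Prop := ∀ (κ R : Type) [DecidableEq κ] (v : List (κ × R)) (A B : κ), A ≠ B →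
  (v.map Prod.fst).count A = 1 → (v.map Prod.fst).count B = 1 →
  ∃ x y : κ × R, v.filter (fun c => decide (c.1 = A ∨ c.1 = B)) = [x, y] ∧ x.1 ≠ y.1

/-- LK: the weight sum of a labelled colouring is `lk2` -/
def S_LK : Prop := ∀ (κ : Type) [DecidableEq κ] (N : ℕ) (D : List Piece) (lab : ℕ × ℕ → κ) (c : ℕ × ℕ → ZMod N)
  (i j : κ), i ≠ j →
  (∑ t ∈ Finset.range D.length, wtAt (muC N) D (fun q => (lab q, c q)) t) i j = lk2 D lab i j

/-- FIN (uses ISO BRA KEI TWO LOW SPN LSU CNT FL2 LK): the theorem -/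
def S_FIN : Prop := ∀ (D : List Piece), IsDiagram D → ∀ (κ π : Type) [Fintype κ] [DecidableEq κ] [DecidableEq π] (N : ℕ)
  (pr : κ → π) (lab : ℕ × ℕ → κ) (c : ℕ × ℕ → ZMod N),
  (∀ K : Kei (κ × ZMod N) (Lt κ π N), K.op = opC N pr → IsCol K D fun q => (lab q, c q)) →
  (∀ k, ∃ q, InR D q ∧ lab q = k) → ∀ S : Finset (κ × κ),
  (∀ p ∈ S, p.1 ≠ p.2 ∧ pr p.1 = pr p.2 ∧ (∀ l, pr l = pr p.1 → l = p.1 ∨ l = p.2) ∧
    ∃ q q', InR D q ∧ InR D q' ∧ pr (lab q) = pr p.1 ∧ pr (lab q') = pr p.1 ∧
      (lk2 D lab p.1 p.2 : ZMod N) * (c q - c q') ≠ 0) →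
  (∀ p ∈ S, ∀ p' ∈ S, pr p.1 = pr p'.1 → p = p') →
  ∀ (n : ℕ) (w : List (ℕ × Bool)), IsBraidWord n w → Isotopic D (braidClosure n w) → Fintype.card κ + S.card ≤ n

end Pool.BraidIndex.Cf
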